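import Mathlib
import Pool.Agent.E2.FD
import Pool.Agent.Helper7.E2.Label
import Pool.Agent.Helper16.E2.Base
import Pool.Agent.Helper3.ETF.Own

/-!
# E-T (MP_12a1af_nt), phase 2: what the frame needs from the lists of regions
-/

open Finset

namespace Pool.Agent.E2

open Pool.Agent.ETS (Hash Zone zcons)
open Pool.Agent.ETP (phiV)

/-- the hash function `h` has the prescribed values `h0` at the keys of the regions `j ∈ nf`
(the key of the region number `j` has length `j`) -/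
def OKh (nf : Finset ℕ) (h0 h : Hash) : Prop :=
  ∀ key : List ℕ, key.length ∈ nf → h key = h0 key

/-- the trivial region -/
def rg0 : Rg where
  bot := 0
  top := 0
  V := {0}
  c := fun _ => 0
  core := fun z => z
  blk := fun _ => 0

/-- the possible values of the digits below the top of the region `r1`; `r0` is the region below
`r1`; the digits `a` below `r0`, the shifts and the core `co` of the variable of `r0` are known -/
def blkz (r0 r1 : Rg) (a κ₁ κ₂ co : ℕ) : Zone where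
  top := r1.top
  S := ((r0.V.filter (fun v => r0.core v = co)) ×ˢ r1.V).image (fun q =>
    a + 2 ^ r0.bot * ((r0.c q.1 + κ₁) % 2 ^ r0.len) +
      2 ^ r1.bot * ((r1.c q.2 + κ₂) % 2 ^ r1.len))

/-- the possible zones of the region `r1` above the region `r0` -/
def BlkZ (r0 r1 : Rg) (Z : Zone) : Prop :=
  ∃ a κ₁ κ₂ co, a < 2 ^ r0.bot ∧ Z = blkz r0 r1 a κ₁ κ₂ co

/-- **Everything which is needed from the layouts** `L K : List Rg` of the scales `K ≥ K0`.
`nf K`: the (list) indices of the regions with prescribed hash values `h0 K`, total length at most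
`nl K`; `ct K`: (list) index of a region with bottom above all `K' ≤ K - g K`. -/
structure LHyp2 (L : ℕ → List Rg) (nf : ℕ → Finset ℕ) (h0 : ℕ → Hash) (nl ct : ℕ → ℕ) (K0 : ℕ)
    (g mm : ℕ → ℕ) (ε : ℕ → ℝ) (near cnt : ℕ → ℕ) : Prop where
  chain : ∀ K, K0 ≤ K → Chain 0 (L K) K
  len2 : ∀ K, K0 ≤ K → 2 ≤ (L K).length
  card : ∀ K, K0 ≤ K → ∀ r ∈ L K, r.V.card ^ 2 ≤ 2 ^ r.len
  inj : ∀ K, K0 ≤ K → ∀ r ∈ L K, ∀ v ∈ r.V, ∀ v' ∈ r.V,
    r.c v ≡ r.c v' [MOD 2 ^ r.len] → v = v'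
  nf0 : ∀ K, K0 ≤ K → 0 ∉ nf K
  nfl : ∀ K, K0 ≤ K → ∑ j ∈ nf K, ((L K)[j]?).elim 0 Rg.len ≤ nl K
  ct1 : ∀ K, K0 ≤ K → ct K < (L K).length
  ctb : ∀ K, K0 ≤ K → ∀ r, (L K)[ct K]? = some r → K < r.bot + g K
  gpos : ∀ K, 1 ≤ g K
  eps0 : ∀ K, 0 ≤ ε K
  mm : ∀ K K', K0 ≤ K' → K' ≤ K → (L K').length + 1 ≤ mm K
  cnt : ∀ K, K0 ≤ K → cnt K ≤ ((L K).map (fun r => r.V.card)).prod
  /-- far pairs -/
  far : ∀ K K', K0 ≤ K' → K' + g K ≤ K → ∀ (j j' : ℕ) (r0 r1 r0' r1' : Rg),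
    j ≤ ct K → j ∉ nf K → j' ∉ nf K' →
    (rg0 :: L K)[j]? = some r0 → (L K)[j]? = some r1 →
    (rg0 :: L K')[j']? = some r0' → (L K')[j']? = some r1' →
    ∃ B : ℕ, (∀ n Z Z', BlkZ r0 r1 Z → BlkZ r0' r1' Z' → (zcons K K' n Z Z').card ≤ B) ∧
      (B : ℝ) * phiV K K' r1.top r1'.top * 2 ^ (nl K + nl K') ≤ ε K
  /-- near pairs, for all hash functions with the prescribed values -/
  near : ∀ K K', K0 ≤ K' → K' ≤ K → K < K' + g K → ∀ h h' : Hash,
    OKh (nf K) (h0 K) h → OKh (nf K') (h0 K') h' → ∀ ν,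
    ((Vs (L K) ×ˢ Vs (L K')).filter (fun q =>
      val (L K) h q.1 + val (L K') h' q.2 = ν)).card ≤ near K

end Pool.Agent.E2
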