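import Mathlib
import Pool.Agent.Helper3.E2.LOwn
import Pool.Agent.Helper7.E2.Frame

/-!
# E-T (MP_12a1af_nt), phase 2: the frame theorem for lists of regions
-/

open Finset

namespace Pool.Agent.E2

open Pool.Agent.ETS (Hash Lay Ind Xsp key key_eq_iff dig dig_val elt fib mem_fib GoodLay ConsSet)
open Pool.Agent.ETP (LayN ConsSetN keyN digN eltN keyfun bridge toF toF_val padLay trivLay PadOK
  pad_bot pad_mono pad_bot0 pad_top pad_len pad_len_lt pad_V pad_V_lt pad_c pad_core pad_core_lt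
  pad_mem pad_card ownz ownz_val key_of_keyN layP padP layP_eq padP_eq hown dig_own elt_own ownz_mem
  vars mem_vars exists_N card_ConsSet_le phi_eq phiV AK PK)
open Pool.Agent.E2F (failA nfI mem_nfI FarHyp nlen)
open Pool.Agent.Helper7.E2 (PairHyp LayHyp2 NearHyp2 pairHyp_of_lay)

section

variable {L : ℕ → List Rg} {nf : ℕ → Finset ℕ} {h0 : ℕ → Hash} {nl ct : ℕ → ℕ}
    {K0 : ℕ} {g mm : ℕ → ℕ} {ε : ℕ → ℝ} {near cnt : ℕ → ℕ}

lemma LHyp2.isL (H : LHyp2 L nf h0 nl ct K0 g mm ε near cnt) {K : ℕ} (hK : K0 ≤ K) :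
    IsL K (L K) := by
  obtain ⟨h1, h2, h3, h4⟩ := getElem?_of_chain2 (H.chain K hK)
  exact ⟨H.len2 K hK, h1, h2, h3, h4, H.card K hK, H.inj K hK⟩

/-- the far bounds in terms of `ofL` -/
lemma LHyp2.farN (H : LHyp2 L nf h0 nl ct K0 g mm ε near cnt) {K K' : ℕ} (h1 : K0 ≤ K')
    (h2 : K' + g K ≤ K) : ∃ Nb : ℕ → ℕ → ℕ, ∀ j j', j ≤ ct K → j' < (L K').length →
      j ∉ nf K → j' ∉ nf K' →
      (∀ n a κ₁ κ₂ a' κ₁' κ₂' co co', a < 2 ^ (ofL K (L K)).bot j →
        a' < 2 ^ (ofL K' (L K')).bot j' →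
        (ConsSetN (ofL K (L K)) (ofL K' (L K')) K K' (j+1) (j'+1) n a κ₁ κ₂ a' κ₁' κ₂' co
          co').card ≤ Nb j j') ∧
      (Nb j j' : ℝ) * phiV K K' ((ofL K (L K)).bot (j+2)) ((ofL K' (L K')).bot (j'+2)) *
        2 ^ (nl K + nl K') ≤ ε K := by
  have hg := H.gpos K
  have hK : K0 ≤ K := by omega
  have hct := H.ct1 K hK
  have hch : ∀ j j', ∃ B : ℕ, j ≤ ct K → j' < (L K').length → j ∉ nf K → j' ∉ nf K' →
      (∀ n a κ₁ κ₂ a' κ₁' κ₂' co co', a < 2 ^ (ofL K (L K)).bot j →
        a' < 2 ^ (ofL K' (L K')).bot j' →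
        (ConsSetN (ofL K (L K)) (ofL K' (L K')) K K' (j+1) (j'+1) n a κ₁ κ₂ a' κ₁' κ₂' co
          co').card ≤ B) ∧
      (B : ℝ) * phiV K K' ((ofL K (L K)).bot (j+2)) ((ofL K' (L K')).bot (j'+2)) *
        2 ^ (nl K + nl K') ≤ ε K := by
    intro j j'
    by_cases hj : j ≤ ct K ∧ j' < (L K').length ∧ j ∉ nf K ∧ j' ∉ nf K'
    · obtain ⟨hj1, hj2, hj3, hj4⟩ := hj
      obtain ⟨r, hr, _⟩ := exists_rg (l := L K) (j := j) (by omega)
      obtain ⟨r', hr', _⟩ := exists_rg (l := L K') (j := j') hj2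
      obtain ⟨r0, hr0, _⟩ := exists_rg (l := rg0 :: L K) (j := j) (by
        rw [List.length_cons]; omega)
      obtain ⟨r0', hr0', _⟩ := exists_rg (l := rg0 :: L K') (j := j') (by
        rw [List.length_cons]; omega)
      obtain ⟨B, hB1, hB2⟩ := H.far K K' h1 h2 j j' r0 r r0' r' hj1 hj3 hj4 hr0 hr hr0' hr'
      refine ⟨B, fun _ _ _ _ => ⟨?_, ?_⟩⟩
      · intro n a κ₁ κ₂ a' κ₁' κ₂' co co' ha ha'
        exact card_ConsSetN_le2 (H.isL hK) (H.isL h1) hr0 hr hr0' hr' B hB1 n a κ₁ κ₂ a' κ₁' κ₂'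
          co co' ha ha'
      · rw [ofL_bot_top (H.isL hK) hr, ofL_bot_top (H.isL h1) hr']
        exact hB2
    · exact ⟨0, fun a1 a2 a3 a4 => absurd ⟨a1, a2, a3, a4⟩ hj⟩
  choose Nb hNb using hch
  exact ⟨Nb, hNb⟩

/-- near pairs -/
lemma LHyp2.nearN (H : LHyp2 L nf h0 nl ct K0 g mm ε near cnt) {K K' : ℕ} (h1 : K0 ≤ K')
    (h2 : K' ≤ K) (h3 : K < K' + g K) (h h' : ℕ → (ℕ → Option ℕ) → ℕ)
    (ho : OKh (nf K) (h0 K) (bridge h)) (ho' : OKh (nf K') (h0 K') (bridge h')) (n : ℕ)
    (P : Finset (ℕ × ℕ))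
    (hP : ∀ q ∈ P, q.1 + q.2 = n ∧
      (∃ z : ℕ → ℕ, (∀ i < (L K).length + 1, z i ∈ (ofL K (L K)).V i) ∧
        eltN (ofL K (L K)) ((L K).length + 1) K h z = q.1) ∧
      (∃ z : ℕ → ℕ, (∀ i < (L K').length + 1, z i ∈ (ofL K' (L K')).V i) ∧
        eltN (ofL K' (L K')) ((L K').length + 1) K' h' z = q.2)) :
    P.card ≤ near K := by
  classical
  have hK : K0 ≤ K := by omega
  have hlist : ∀ (K₁ : ℕ) (hK₁ : K0 ≤ K₁) (hh : ℕ → (ℕ → Option ℕ) → ℕ) (a : ℕ) (z : ℕ → ℕ),
      (∀ i < (L K₁).length + 1, z i ∈ (ofL K₁ (L K₁)).V i) →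
      eltN (ofL K₁ (L K₁)) ((L K₁).length + 1) K₁ hh z = a →
      ∃ zs ∈ Vs (L K₁), 2 ^ K₁ + val (L K₁) (bridge hh) zs = a := by
    intro K₁ hK₁ hh a z hz ha
    have hz0 : z 0 = 0 := by
      have := hz 0 (by omega)
      simpa [ofL] using this
    refine ⟨_, mem_Vs_map (L K₁) (fun i => z (i+1)) ?_, ?_⟩
    · intro j r hr
      have hj : j < (L K₁).length := by
        rw [List.getElem?_eq_some_iff] at hr
        exact hr.1
      have := hz (j+1) (by omega)
      rwa [ofL_V_succ hr] at this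
    · rw [← eltN_eq_val (H.isL hK₁) hh hz0]
      exact ha
  refine le_trans ?_ (H.near K K' h1 h2 h3 (bridge h) (bridge h') ho ho' (n - 2 ^ K - 2 ^ K'))
  have hsub : P ⊆ ((Vs (L K) ×ˢ Vs (L K')).filter (fun q =>
      val (L K) (bridge h) q.1 + val (L K') (bridge h') q.2 =
        n - 2 ^ K - 2 ^ K')).image (fun q => (2 ^ K + val (L K) (bridge h) q.1,
          2 ^ K' + val (L K') (bridge h') q.2)) := by
    intro q hq
    obtain ⟨hsum, ⟨z, hz, hzq⟩, ⟨z', hz', hzq'⟩⟩ := hP q hq
    obtain ⟨zs, hzs, e1⟩ := hlist K hK h q.1 z hz hzq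
    obtain ⟨zs', hzs', e2⟩ := hlist K' h1 h' q.2 z' hz' hzq'
    rw [mem_image]
    refine ⟨(zs, zs'), ?_, ?_⟩
    · rw [mem_filter, mem_product]
      refine ⟨⟨hzs, hzs'⟩, ?_⟩
      simp only
      omega
    · simp only
      rw [e1, e2]
  exact (card_le_card hsub).trans card_image_le

/-- the product over the regions of `ofL` -/
lemma ofL_prod (K : ℕ) (l : List Rg) :
    ∏ i ∈ range (l.length + 1), ((ofL K l).V i).card = (l.map (fun r => r.V.card)).prod := by
  rw [prod_range_succ']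
  have e0 : ((ofL K l).V 0).card = 1 := by simp [ofL]
  rw [e0, mul_one]
  have e1 : ∀ (l : List Rg), ∏ j ∈ range l.length, ((ofL K l).V (j+1)).card =
      (l.map (fun r => r.V.card)).prod := by
    intro l
    induction l with
    | nil => simp
    | cons r rs ih =>
      rw [List.length_cons, prod_range_succ', List.map_cons, List.prod_cons, ← ih, mul_comm]
      congr 1
  exact e1 l

/-- the total length of the prescribed regions -/
lemma LHyp2.nlen_le (H : LHyp2 L nf h0 nl ct K0 g mm ε near cnt) {M N : ℕ} (hN : 0 < N) {K : ℕ}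
    (hK : K0 ≤ K) (hp : PadOK M N (ofL K (L K)) ((L K).length + 1) K) :
    nlen M (layP M N hN (fun K => ofL K (L K)) (fun K => (L K).length + 1) K0)
      (nfP M (fun K => (L K).length + 1) K0 nf) K ≤ nl K := by
  classical
  refine le_trans ?_ (H.nfl K hK)
  unfold nlen
  have hmM := hp.mM
  set A : ℕ → LayN := fun K => ofL K (L K) with hA
  set m : ℕ → ℕ := fun K => (L K).length + 1 with hm
  have hmK : m K = (L K).length + 1 := rfl
  have hsub : (range M).filter (fun i => i ∈ nfP M m K0 nf K) ⊆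
      ((nf K).filter (fun j => j < (L K).length)).image (fun j => j + 1 + (M - m K)) := by
    intro i hi
    rw [mem_filter, mem_range] at hi
    obtain ⟨hiM, hi⟩ := hi
    unfold nfP at hi
    rw [if_pos hK, mem_image] at hi
    obtain ⟨j, hj, rfl⟩ := hi
    rw [mem_image]
    exact ⟨j, by rw [mem_filter]; exact ⟨hj, by omega⟩, rfl⟩
  refine (Finset.sum_le_sum_of_subset hsub).trans ?_
  rw [Finset.sum_image (by
    intro a _ b _ hab
    have hab' : a + 1 + (M - m K) = b + 1 + (M - m K) := hab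
    omega)]
  refine le_trans ?_ (Finset.sum_le_sum_of_subset (filter_subset (fun j => j < (L K).length) (nf K)))
  refine Finset.sum_le_sum (fun j hj => ?_)
  rw [mem_filter] at hj
  obtain ⟨r, hr, _⟩ := exists_rg hj.2
  rw [hr]
  simp only [Option.elim_some]
  have e1 : (layP M N hN A m K0 K).len (j + 1 + (M - m K)) = (A K).len (j + 1) := by
    rw [layP_eq hN A m K0 hK, pad_len hN hp (by omega) (by omega)]
    congr 1
    show j + 1 + (M - m K) - (M - m K) = j + 1
    omega
  rw [e1]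
  show (ofL K (L K)).len (j + 1) ≤ r.len
  rw [ofL_len (H.isL hK) hr]

/-- **from the lists of regions to the hypotheses of the frame** -/
theorem LHyp2.layHyp (H : LHyp2 L nf h0 nl ct K0 g mm ε near cnt) (Kmax : ℕ) :
    LayHyp2 Kmax K0 g mm ε near cnt := by
  classical
  set A : ℕ → LayN := fun K => ofL K (L K) with hA
  set m : ℕ → ℕ := fun K => (L K).length + 1 with hm
  have hmK : ∀ K, m K = (L K).length + 1 := fun K => rfl
  obtain ⟨N, hN, hlt⟩ := exists_N A m Kmax
  obtain ⟨M, hM⟩ : ∃ M, M = mm Kmax + 3 := ⟨_, rfl⟩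
  have hmM : ∀ K, K0 ≤ K → K ≤ Kmax → m K ≤ M := by
    intro K h1 h2
    have := H.mm Kmax K h1 h2
    rw [hmK]
    omega
  have hm3 : ∀ K, K0 ≤ K → 3 ≤ m K := fun K hK => by
    have := H.len2 K hK
    rw [hmK]; omega
  have hP : ∀ K, K0 ≤ K → K ≤ Kmax → PadOK M N (A K) (m K) K := by
    intro K h1 h2
    refine ⟨hm3 K h1, hmM K h1 h2, ofL_bot_zero, fun i hi => ofL_mono (H.isL h1) i hi, ?_,
      fun i hi v hv => hlt K h2 i hi v hv⟩
    have h3 := H.len2 K h1
    obtain ⟨r, hr, _⟩ := exists_rg (l := L K) (j := (L K).length - 1) (by omega)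
    have h4 := ofL_bot_top (H.isL h1) hr
    rw [(H.isL h1).last r hr] at h4
    have e : (L K).length - 1 + 2 = (L K).length + 1 := by omega
    rwa [e] at h4
  have hgood : GoodLay M (layP M N hN A m K0) Kmax := by
    refine ⟨fun L hL => ?_, fun L hL => ?_, fun L hL => ?_⟩
    · by_cases h : K0 ≤ L
      · rw [layP_eq hN A m K0 h]; exact pad_bot0 hN (hP L h hL)
      · unfold layP trivLay
        rw [if_neg h]
        simp only
        rw [if_pos (by omega)]
    · by_cases h : K0 ≤ L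
      · rw [layP_eq hN A m K0 h]; exact pad_mono hN (hP L h hL)
      · unfold layP trivLay
        rw [if_neg h]
        intro i j hij
        simp only
        split_ifs <;> omega
    · by_cases h : K0 ≤ L
      · rw [layP_eq hN A m K0 h]; exact pad_top hN
      · unfold layP trivLay
        rw [if_neg h]
        simp
  have hcardA : ∀ K, K0 ≤ K → ∀ i < m K, ((A K).V i).card ^ 2 ≤ 2 ^ (A K).len i := by
    intro K hK i hi
    rw [hmK] at hi
    rcases Nat.eq_zero_or_pos i with rfl | h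
    · have e : (A K).V 0 = {0} := by simp [hA, ofL]
      simp only [e, card_singleton, one_pow]
      exact Nat.one_le_two_pow
    · obtain ⟨j, rfl⟩ : ∃ j, i = j + 1 := ⟨i - 1, by omega⟩
      obtain ⟨r, hr, hmem⟩ := exists_rg (l := L K) (j := j) (by omega)
      show ((ofL K (L K)).V (j+1)).card ^ 2 ≤ 2 ^ (ofL K (L K)).len (j+1)
      rw [ofL_V_succ hr, ofL_len (H.isL hK) hr]
      exact H.card K hK r hmem
  have hinjA : ∀ K, K0 ≤ K → ∀ i < m K, ∀ v ∈ (A K).V i, ∀ v' ∈ (A K).V i,
      (A K).c i v ≡ (A K).c i v' [MOD 2 ^ (A K).len i] → v = v' := by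
    intro K hK i hi v hv v' hv' hvv
    rw [hmK] at hi
    rcases Nat.eq_zero_or_pos i with rfl | h
    · have e : (A K).V 0 = {0} := by simp [hA, ofL]
      rw [e, mem_singleton] at hv hv'
      rw [hv, hv']
    · obtain ⟨j, rfl⟩ : ∃ j, i = j + 1 := ⟨i - 1, by omega⟩
      obtain ⟨r, hr, hmem⟩ := exists_rg (l := L K) (j := j) (by omega)
      have hv1 : v ∈ (ofL K (L K)).V (j+1) := hv
      have hv1' : v' ∈ (ofL K (L K)).V (j+1) := hv'
      have hvv1 : (ofL K (L K)).c (j+1) v ≡ (ofL K (L K)).c (j+1) v'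
        [MOD 2 ^ (ofL K (L K)).len (j+1)] := hvv
      rw [ofL_V_succ hr] at hv1 hv1'
      rw [ofL_c_succ hr, ofL_c_succ hr, ofL_len (H.isL hK) hr] at hvv1
      exact H.inj K hK r hmem v hv1 v' hv1' hvv1
  refine ⟨M, N, layP M N hN A m K0, padP M m K0, nfP M m K0 nf,
    fun K => if K0 ≤ K then ct K + 1 + (M - m K) else 0, x0P hN A m K0 h0, ?_, ?_, ?_, ?_⟩
  · -- FarHyp
    refine ⟨hgood, ?_, ?_, ?_, ?_, ?_, ?_, ?_, H.gpos, H.eps0, ?_, ?_⟩
    · intro L hL
      by_cases h : K0 ≤ L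
      · rw [padP_eq m K0 h]
        have h1 := hmM L h hL
        have h2 := hm3 L h
        omega
      · unfold padP
        rw [if_neg h]
        omega
    · -- the region above the padding is not prescribed
      intro L hL hcon
      unfold nfP at hcon
      by_cases h : K0 ≤ L
      · rw [if_pos h, mem_image, padP_eq m K0 h] at hcon
        obtain ⟨j, hj, hje⟩ := hcon
        have hj0 : j = 0 := by omega
        rw [hj0] at hj
        exact H.nf0 L h hj
      · rw [if_neg h] at hcon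
        simp at hcon
    · intro K hK h
      rw [padP_eq m K0 h, if_pos h]
      omega
    · intro K hK h
      rw [if_pos h]
      have h1 := hmM K h hK
      have h2 := H.ct1 K h
      have h3 := hmK K
      omega
    · intro K hK h
      rw [if_pos h, layP_eq hN A m K0 h]
      have h1 := hmM K h hK
      have h2 := H.ct1 K h
      have h3 := hmK K
      rw [pad_bot hN (hP K h hK) (by omega)]
      have e1 : ct K + 1 + (M - m K) - (M - m K) = ct K + 1 := by omega
      rw [e1]
      obtain ⟨r, hr, _⟩ := exists_rg h2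
      show K < (ofL K (L K)).bot (ct K + 1) + g K
      rw [ofL_bot_succ hr]
      exact H.ctb K h r hr
    · intro L hL i hi
      by_cases h : K0 ≤ L
      · have hp := hP L h hL
        rw [layP_eq hN A m K0 h]
        rcases Nat.lt_or_ge i (M - m L) with h1 | h1
        · rw [pad_V_lt hN i h1]
          simp only [card_singleton, one_pow]
          exact Nat.one_le_two_pow
        · rw [pad_card hN hp h1 hi, pad_len hN hp h1 hi]
          exact hcardA L h _ (by have := hp.mM; omega)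
      · unfold layP trivLay
        rw [if_neg h]
        simp only [card_singleton, one_pow]
        exact Nat.one_le_two_pow
    · intro L hL i hi
      by_cases h : K0 ≤ L
      · have hp := hP L h hL
        rw [padP_eq m K0 h] at hi
        rw [layP_eq hN A m K0 h]
        rcases Nat.lt_or_ge i (M - m L) with h1 | h1
        · rw [pad_V_lt hN i h1]; simp
        · have h2 := hm3 L h
          have h3 := hp.mM
          rw [pad_card hN hp h1 (by omega)]
          have e1 : i - (M - m L) = 0 := by omega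
          rw [e1]
          simp [hA, ofL]
      · unfold layP trivLay
        rw [if_neg h]
        simp
    · intro K hK L h1 h2
      rw [padP_eq m K0 h1]
      have h3 := H.mm K L h1 h2
      have h4 := hmM L h1 (by omega)
      have h5 := hmK L
      omega
    · intro K hK K' h1 h2
      obtain ⟨Nb, hNb⟩ := H.farN h1 h2
      have hgp := H.gpos K
      have hK0 : K0 ≤ K := by omega
      have hp := hP K hK0 hK
      have hp' := hP K' h1 (by omega)
      have r1 := hp.mM
      have r2 := hp'.mM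
      have r3 := hp.m3
      have r4 := hp'.m3
      have r5 := hmK K
      have r6 := hmK K'
      have r7 := H.ct1 K hK0
      have hnfP : ∀ K₁, K0 ≤ K₁ → m K₁ ≤ M → ∀ i, M - m K₁ + 1 ≤ i → i ∉ nfP M m K0 nf K₁ →
          i - (M - m K₁) - 1 ∉ nf K₁ := by
        intro K₁ hK₁ hmM₁ i hi hin hcon
        apply hin
        unfold nfP
        rw [if_pos hK₁, mem_image]
        exact ⟨_, hcon, by omega⟩
      refine ⟨fun i i' => Nb (i - (M - m K) - 1) (i' - (M - m K') - 1), ?_, ?_⟩
      · intro i i' hi hi' hict hiM' hin hin' n a κ₁ κ₂ a' κ₁' κ₂' co co' ha ha'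
        rw [padP_eq m K0 hK0] at hi
        rw [padP_eq m K0 h1] at hi'
        rw [if_pos hK0] at hict
        have e1 : i - (M - m K) - 1 + 1 = i - (M - m K) := by omega
        have e1' : i' - (M - m K') - 1 + 1 = i' - (M - m K') := by omega
        have e2 : i - (M - m K) - 1 = i - 1 - (M - m K) := by omega
        have e2' : i' - (M - m K') - 1 = i' - 1 - (M - m K') := by omega
        have h3 := (hNb (i - (M - m K) - 1) (i' - (M - m K') - 1) (by omega) (by omega)
          (hnfP K hK0 r1 i hi hin) (hnfP K' h1 r2 i' hi' hin')).1 n a κ₁ κ₂ a' κ₁' κ₂' co.val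
          co'.val
        rw [e1, e1'] at h3
        have hbnd : ∀ K₁ (hK₁ : K0 ≤ K₁) (hK₁m : K₁ ≤ Kmax) i₁, M - m K₁ + 1 ≤ i₁ → i₁ < M →
            (layP M N hN A m K0 K₁).bot (i₁-1) =
              (ofL K₁ (L K₁)).bot (i₁ - (M - m K₁) - 1) := by
          intro K₁ hK₁ hK₁m i₁ hi₁ hi₁M
          rw [layP_eq hN A m K0 hK₁, pad_bot hN (hP K₁ hK₁ hK₁m) (by omega)]
          show (ofL K₁ (L K₁)).bot (i₁ - 1 - (M - m K₁)) = _
          congr 1
          omega
        rw [hbnd K hK0 hK i hi (by omega)] at ha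
        rw [hbnd K' h1 (by omega) i' hi' hiM'] at ha'
        have h4 := h3 ha ha'
        exact (card_ConsSet_le2 hN hK0 h1 hp hp' hi hi' (by omega) hiM' n a κ₁ κ₂ a' κ₁' κ₂' co
          co').trans h4
      · intro i i' hi hi' hict hiM' hin hin'
        rw [padP_eq m K0 hK0] at hi
        rw [padP_eq m K0 h1] at hi'
        rw [if_pos hK0] at hict
        have h3 := (hNb (i - (M - m K) - 1) (i' - (M - m K') - 1) (by omega) (by omega)
          (hnfP K hK0 r1 i hi hin) (hnfP K' h1 r2 i' hi' hin')).2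
        rw [phi_eq hN hK0 h1 hp hp' (by omega) (by omega) (by omega) (by omega)]
        have e1 : i - (M - m K) - 1 + 2 = i - (M - m K) + 1 := by omega
        have e1' : i' - (M - m K') - 1 + 2 = i' - (M - m K') + 1 := by omega
        rw [e1, e1'] at h3
        refine le_trans ?_ h3
        refine mul_le_mul_of_nonneg_left ?_ ?_
        · refine pow_le_pow_right₀ (by norm_num) ?_
          exact Nat.add_le_add (H.nlen_le hN hK0 hp) (H.nlen_le hN h1 hp')
        · refine mul_nonneg (by positivity) ?_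
          unfold phiV
          positivity
  · -- NearHyp2
    refine ⟨fun K K' x hx h1 h2 h3 n => ?_⟩
    have hK0 : K0 ≤ K.val := by omega
    have hp := hP K hK0 (by have := K.isLt; omega)
    have hp' := hP K' h1 (by have := K'.isLt; omega)
    refine H.nearN h1 h2 h3 (hpre hN A m K0 nf h0 K x) (hpre hN A m K0 nf h0 K' x)
      (okh_hpre hN A m K0 nf h0 K x) (okh_hpre hN A m K0 nf h0 K' x) n _ ?_
    intro q hq
    unfold PK AK at hq
    rw [mem_filter, mem_product, mem_image, mem_image] at hq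
    obtain ⟨⟨⟨z, hz, hzq⟩, ⟨z', hz', hzq'⟩⟩, hsum⟩ := hq
    refine ⟨hsum, ⟨ownz M (m K) z, ownz_mem hN hK0 hp hz, ?_⟩,
      ⟨ownz M (m K') z', ownz_mem hN h1 hp' hz', ?_⟩⟩
    · rw [← hzq]
      exact elt_pre hN hK0 hp hx hz
    · rw [← hzq']
      exact elt_pre hN h1 hp' hx hz'
  · intro K h1 h2 i hi v hv v' hv' hvv
    have hp := hP K h1 h2
    have r1 := hp.mM
    rw [layP_eq hN A m K0 h1] at hv hv' hvv
    rcases Nat.lt_or_ge i (M - m K) with h3 | h3
    · rw [pad_V_lt hN i h3, mem_singleton] at hv hv'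
      rw [hv, hv']
    · have q1 := pad_mem hN hp h3 hi hv
      have q2 := pad_mem hN hp h3 hi hv'
      rw [pad_c hN i h3, pad_c hN i h3, pad_len hN hp h3 hi] at hvv
      exact Fin.ext (hinjA K h1 _ (by omega) _ q1.1 _ q2.1 hvv)
  · intro K h1 h2
    have hp := hP K h1 h2
    have r1 := hp.mM
    refine (H.cnt K h1).trans (le_of_eq ?_)
    rw [← ofL_prod K (L K), layP_eq hN A m K0 h1]
    have e1 : ∏ t : Fin M, ((padLay M N hN (A K) (m K) K).V t.val).card =
        ∏ t ∈ range M, ((padLay M N hN (A K) (m K) K).V t).card :=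
      Fin.prod_univ_eq_prod_range (fun t => ((padLay M N hN (A K) (m K) K).V t).card) M
    rw [e1]
    have e2 : ∀ k, k ≤ m K → ∏ t ∈ range (k + (M - m K)),
        ((padLay M N hN (A K) (m K) K).V t).card = ∏ i ∈ range k, ((A K).V i).card := by
      intro k
      induction k with
      | zero =>
        intro _
        rw [zero_add, range_zero, prod_empty]
        refine Finset.prod_eq_one (fun t ht => ?_)
        rw [mem_range] at ht
        rw [pad_V_lt hN t ht]
        simp
      | succ k ih =>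
        intro hk
        have e3 : k + 1 + (M - m K) = (k + (M - m K)) + 1 := by omega
        rw [e3, prod_range_succ, ih (by omega), prod_range_succ,
          pad_card hN hp (by omega) (by omega)]
        congr 3
        omega
    have e4 := e2 (m K) (le_refl _)
    have e5 : m K + (M - m K) = M := by omega
    rw [e5] at e4
    exact e4.symm

/-- from the lists of regions to the pair bounds of the scales up to `Kmax` -/
theorem LHyp2.pairHyp (H : LHyp2 L nf h0 nl ct K0 g mm ε near cnt) (s : ℕ → ℕ) (Kmax : ℕ)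
    (hfail : ∑ K ∈ Icc K0 Kmax, failA mm s ε K < 1) :
    PairHyp Kmax K0 (fun K => max (near K) (s K)) cnt :=
  pairHyp_of_lay (H.layHyp Kmax) s hfail

/-- **the frame theorem for lists of regions, phase 2** -/
theorem frame_L2 (H : LHyp2 L nf h0 nl ct K0 g mm ε near cnt) (hK0 : 1 ≤ K0) (s : ℕ → ℕ)
    (hfail : ∀ Kmax, ∑ K ∈ Icc K0 Kmax, failA mm s ε K < 1) :
    ∃ A : Set ℕ, (∀ n, {q : ℕ × ℕ | q.1 ∈ A ∧ q.2 ∈ A ∧ q.1 + q.2 = n}.ncard ≤
        2 * ((Nat.log 2 (Nat.log 2 n - 1) + 1) *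
            max (near (Nat.log 2 n - 1)) (s (Nat.log 2 n - 1)) +
          (Nat.log 2 (Nat.log 2 n) + 1) * max (near (Nat.log 2 n)) (s (Nat.log 2 n)))) ∧
      ∀ K, K0 ≤ K → cnt K / (4 * K) - 1 ≤ (A ∩ Set.Ico (2 ^ K) (2 ^ (K + 1))).ncard :=
  Pool.Agent.Helper7.E2.frame2 hK0 (fun Kmax => H.pairHyp s Kmax (hfail Kmax))

end

end Pool.Agent.E2
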