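import Mathlib
import Pool.Agent.E2S.Above

/-!
# E-T (MP_12a1af_nt), phase 2: far pairs, `P` zone at `K` with a known lower part (LOW)
-/

open Finset

namespace Pool.Agent.E2S

open Pool.Agent.ETS
open Pool.Agent.Helper29.ETK (Kid CC lg)
open Pool.Agent.Helper29.E2 (kid wb ep Wd av ab ag ak gth epo Wd_pos)
open Pool.Agent.E2 (pidx isPT Desc IsDesc Occ ddist)
open Pool.Agent.ETP (phiV)
open Pool.Agent.Helper5.ETP

variable {c K K' : ℕ} {D : Codes}

lemma low_add_le {w a b : ℕ} (h : a < b) (h1 : w ∣ a) (h2 : w ∣ b) : a + w ≤ b := by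
  have := Nat.le_of_dvd (by omega) (Nat.dvd_sub h2 h1)
  omega

lemma CodeFacts.pc {D : Codes} (H : CodeFacts c D) (p : ℕ) : PCode (D.X p) (D.P p) := by
  have e1 : D.X p = (Pool.Agent.Helper83.ET.pcode (CC c) p).X := funext (H.X p)
  have e2 : D.P p = (Pool.Agent.Helper83.ET.pcode (CC c) p).P := by
    funext l x; exact H.P p l x
  rw [e1, e2]
  exact (Pool.Agent.Helper83.ET.pcode (CC c) p).toPCode

/-- bound over the values of the second zone -/
lemma zcons_le_singles {K K' n M : ℕ} {Z Z' : Zone}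
    (h : ∀ s' ∈ Z'.S, (zcons K K' n Z ⟨Z'.top, {s'}⟩).card ≤ M) :
    (zcons K K' n Z Z').card ≤ Z'.S.card * M := by
  classical
  have hsub : zcons K K' n Z Z' ⊆ Z'.S.biUnion (fun s' => zcons K K' n Z ⟨Z'.top, {s'}⟩) := by
    intro s hs
    rw [mem_zcons] at hs
    rw [mem_biUnion]
    refine ⟨s.2, hs.1.2, ?_⟩
    rw [mem_zcons]
    exact ⟨⟨hs.1.1, by simp⟩, hs.2⟩
  calc (zcons K K' n Z Z').card ≤ _ := card_le_card hsub
    _ ≤ ∑ s' ∈ Z'.S, (zcons K K' n Z ⟨Z'.top, {s'}⟩).card := card_biUnion_le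
    _ ≤ ∑ s' ∈ Z'.S, M := Finset.sum_le_sum h
    _ = Z'.S.card * M := by rw [sum_const, smul_eq_mul]

/-- what is used of the zone at the time `K'` -/
structure LoD (c : ℕ) (d : Desc) : Prop where
  lo : ∀ s < d.lo, Wd c s ∣ d.lo
  ip : d.IsR → d.Ip c = d.lo ∨ (d.Ip c = d.lo + Wd c d.lo ∧ Wd c d.lo ∣ d.lo ∧
    d.Ip c ≤ d.hi c ∧ 0 < d.lo ∧ Wd c d.lo ∣ d.hi c)

lemma loD_of {e1 : ℕ} (hc : 1 ≤ c) (H : OneK c e1 K') (he1 : 1 ≤ e1) {d : Desc} {r0 r1 : Reg}
    (hd : IsDesc c K' d r0 r1) : LoD c d := by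
  have HS := H.S
  have hwt := H.K.wbt
  cases d with
  | P g e =>
    obtain ⟨rfl, h0, h1, h2, h3, h4⟩ := hd
    have hcut : KCut c K' e := by
      rcases h4 with h4 | h4
      · exact Or.inr (Or.inl h4)
      · exact Or.inr (Or.inr (by
          rw [h3 (e - 1) (by omega) (by omega)]
          exact fun h => h4 h.symm))
    obtain ⟨d1, d2⟩ := HS.P g g (by omega) (h3 g le_rfl h1) e h1 h2 hcut h3
    exact
      { lo := fun s hs => (Wd_dvd (by show s ≤ e - 1; have : s < g := hs; omega)).trans d2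
        ip := fun h => absurd h (by simp [Desc.IsR]) }
  | PT g b =>
    obtain ⟨rfl, h0, h1, h2, h3, h4, h5⟩ := hd
    have hW := Wd_pos c b
    obtain ⟨d1, d2, d3, d4⟩ := HS.PT g b g (by omega) (h4 g le_rfl (by omega))
    exact
      { lo := fun s hs => (Wd_dvd (by have : s < g := hs; omega)).trans d2
        ip := fun h => absurd h (by simp [Desc.IsR]) }
  | RS g b v =>
    obtain ⟨rfl, rfl, h1, h2, h3, h4, h5, h6⟩ := hd
    obtain ⟨d1, d2, d3, -, d5, d6⟩ := desc_PT H hc h2 (by omega) h5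
    have hb0 : 0 < b := by
      rcases Nat.eq_zero_or_pos b with h0 | h0
      · rw [h0] at d5
        have : ep c 0 = 0 := by simp [ep, lg]
        omega
      · exact h0
    exact
      { lo := fun s hs => (Wd_dvd (by have : s < b := hs; omega)).trans d1
        ip := fun _ => Or.inr ⟨rfl, d1, h3, hb0, by show Wd c b ∣ v; rw [h1]; exact d3⟩ }
  | R b v =>
    obtain ⟨rfl, h0, h1, h2, h3, h4⟩ := hd
    have hk := h3 b le_rfl h1
    have hcut : KCut c K' b := by
      rcases h4 with h4 | h4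
      · exact Or.inl h4
      · exact Or.inr (Or.inr (by rw [hk]; exact h4))
    obtain ⟨d0, d1, d2⟩ := H.R v b (by omega) hk hcut
    exact
      { lo := fun s hs => (Wd_dvd (by have : s < b := hs; omega)).trans d1
        ip := fun _ => Or.inl rfl }
  | RT b v =>
    obtain ⟨rfl, h0, h1, h2, h3, h4⟩ := hd
    obtain ⟨d1, d2, d3, -, d5, d6⟩ := desc_RT H hc h1 h2 h3 h4
    exact
      { lo := fun s hs => (Wd_dvd (by have : s < b := hs; omega)).trans d1
        ip := fun _ => Or.inr ⟨rfl, d1, d6, d3, d2⟩ }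
  | RTh b v =>
    obtain ⟨rfl, h0, h1, h2, h3, h4⟩ := hd
    obtain ⟨d1, d2, d3, -, d5, d6⟩ := desc_RTh H hc h1 h2 h3 h4
    exact
      { lo := fun s hs => (Wd_dvd (by have : s < b := hs; omega)).trans d1
        ip := fun _ => Or.inr ⟨rfl, d1, d6, d3, d2⟩ }

/-- **the count**: `P` zone `[g, b)` with a block of width `w` above it, digits below `lo'` known -/
lemma low_num {g b w lo' hi' x N : ℕ} {r0 r1 r0' r1' : Reg} {C : Codes}
    (hc : 20 ≤ c) (hg : K' + gth c K ≤ K) (hv : r1.top C = b + w) (hv' : r1'.top C = hi')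
    (hgb : g ≤ b) (hw : 2 ∣ w) (h1 : g ≤ lo') (hlt : hi' < b + w) (h2 : b + w ≤ K')
    (hx : (10 * CC c + 5) * x ≤ 10 * CC c * (K - K'))
    (i1 : lo' - g < (b - g + 1) / 2 → b + w - lo' ≤ x + (lo' - g))
    (i2 : (b - g + 1) / 2 ≤ lo' - g → hi' ≤ b + x)
    (h16 : 16 * CC c ≤ gth c K)
    (hN : N ≤ (2 ^ ((b - g + 1) / 2 - (lo' - g)) + 1) * 2 ^ (w / 2))
    (hcard : ∀ n Z Z', ZoneOf C r0 r1 Z → ZoneOf C r0' r1' Z' → (zcons K K' n Z Z').card ≤ N) :
    FarOK C c K K' r0 r1 r0' r1' := by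
  have hC := CC_ge hc
  have hKK : K' ≤ K := by omega
  obtain ⟨m, hm⟩ : ∃ m, m = (b - g + 1) / 2 - (lo' - g) + w / 2 := ⟨_, rfl⟩
  have hN2 : N ≤ 2 * 2 ^ m := by
    refine hN.trans ?_
    rw [hm, pow_add, ← mul_assoc]
    apply Nat.mul_le_mul_right
    have := Nat.one_le_two_pow (n := (b - g + 1) / 2 - (lo' - g))
    omega
  refine ⟨2 * 2 ^ m, fun n Z Z' hZ hZ' => (hcard n Z Z' hZ hZ').trans hN2, ?_⟩
  rw [hv, hv']
  have h2M : 2 ≤ 2 ^ (gth c K / (16 * CC c)) := by
    have h1 : 1 ≤ gth c K / (16 * CC c) := by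
      rw [Nat.one_le_div_iff (by omega)]
      exact h16
    calc 2 = 2 ^ 1 := rfl
      _ ≤ _ := Nat.pow_le_pow_right (by norm_num) h1
  refine num_triv (C := CC c) (x := x) (le_trans (by norm_num) hC) hg h2M hx ?_
    (phiV_eq_of_le hKK h2 (hlt.le.trans h2))
  have e3 : |((b + w : ℕ) : ℝ) - hi'| = ((b + w : ℕ) : ℝ) - hi' := by
    apply abs_of_nonneg
    have : (hi' : ℝ) ≤ ((b + w : ℕ) : ℝ) := by exact_mod_cast hlt.le
    linarith
  rw [e3]
  -- `2 m ≤ (b + w - hi') + x`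
  have key : 2 * m + hi' ≤ b + w + x := by
    rcases Nat.lt_or_ge (lo' - g) ((b - g + 1) / 2) with h | h
    · have := i1 h
      omega
    · have := i2 h
      omega
  have key' : 2 * (m : ℝ) + hi' ≤ ((b + w : ℕ) : ℝ) + x := by exact_mod_cast key
  linarith

/-- **the count**, same bottom: `P` zone `[g, b)` with a block of width `w` above it, the values of
the second zone `[g, hi')` are used -/
lemma low_num2 {g b w hi' W N : ℕ} {r0 r1 r0' r1' : Reg} {C : Codes}
    (hc : 20 ≤ c) (hg : K' + gth c K ≤ K) (hv : r1.top C = b + w) (hv' : r1'.top C = hi')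
    (hgb : g ≤ b) (hgh : g + W ≤ hi') (hb : hi' ≤ b) (hlt : hi' < b + w) (h2 : b + w ≤ K')
    (hW : W ≤ w ∨ hi' + W ≤ b) (hW1 : 1 ≤ W)
    (hx : (10 * CC c + 9) * (b + w - (g + W)) ≤ 10 * CC c * (K - K'))
    (h16 : 16 * CC c ≤ gth c K)
    (hN : N ≤ (2 * 2 ^ ((hi' - g) / 2)) *
      ((2 ^ ((b - g + 1) / 2 - (hi' - g)) + 1) * 2 ^ (w / 2)))
    (hcard : ∀ n Z Z', ZoneOf C r0 r1 Z → ZoneOf C r0' r1' Z' → (zcons K K' n Z Z').card ≤ N) :
    FarOK C c K K' r0 r1 r0' r1' := by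
  have hC := CC_ge hc
  have hKK : K' ≤ K := by omega
  obtain ⟨m, hm⟩ : ∃ m, m = (hi' - g) / 2 + ((b - g + 1) / 2 - (hi' - g)) + w / 2 + 1 := ⟨_, rfl⟩
  have hN2 : N ≤ 2 * 2 ^ m := by
    refine hN.trans ?_
    have h1 : 2 ^ ((b - g + 1) / 2 - (hi' - g)) + 1 ≤ 2 * 2 ^ ((b - g + 1) / 2 - (hi' - g)) := by
      have := Nat.one_le_two_pow (n := (b - g + 1) / 2 - (hi' - g))
      omega
    calc (2 * 2 ^ ((hi' - g) / 2)) * ((2 ^ ((b - g + 1) / 2 - (hi' - g)) + 1) * 2 ^ (w / 2))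
        ≤ (2 * 2 ^ ((hi' - g) / 2)) * ((2 * 2 ^ ((b - g + 1) / 2 - (hi' - g))) * 2 ^ (w / 2)) :=
          Nat.mul_le_mul_left _ (Nat.mul_le_mul_right _ h1)
      _ = 2 * 2 ^ m := by rw [hm, pow_add, pow_add, pow_add]; ring
  refine ⟨2 * 2 ^ m, fun n Z Z' hZ hZ' => (hcard n Z Z' hZ hZ').trans hN2, ?_⟩
  rw [hv, hv']
  have h2M : 2 ≤ 2 ^ (gth c K / (16 * CC c)) := by
    have h1 : 1 ≤ gth c K / (16 * CC c) := by
      rw [Nat.one_le_div_iff (by omega)]
      exact h16
    calc 2 = 2 ^ 1 := rfl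
      _ ≤ _ := Nat.pow_le_pow_right (by norm_num) h1
  -- the distance
  obtain ⟨y, hy⟩ : ∃ y, y = b + w - (g + W) := ⟨_, rfl⟩
  rw [← hy] at hx
  have hD : 16 * CC c ≤ K - K' := by omega
  have hx2 : (10 * CC c + 5) * (y + 3) ≤ 10 * CC c * (K - K') := by
    rcases Nat.lt_or_ge y (10 * CC c) with h | h
    · have e1 : (10 * CC c + 5) * (y + 3) ≤ (10 * CC c + 5) * (10 * CC c + 3) :=
        Nat.mul_le_mul_left _ (by omega)
      have e2 : (10 * CC c + 5) * (10 * CC c + 3) ≤ 10 * CC c * (16 * CC c) := by nlinarith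
      exact e1.trans (e2.trans (Nat.mul_le_mul_left _ hD))
    · refine le_trans ?_ hx
      nlinarith
  refine num_triv (C := CC c) (x := y + 3) (le_trans (by norm_num) hC) hg h2M hx2 ?_
    (phiV_eq_of_le hKK h2 (hlt.le.trans h2))
  have e3 : |((b + w : ℕ) : ℝ) - hi'| = ((b + w : ℕ) : ℝ) - hi' := by
    apply abs_of_nonneg
    have : (hi' : ℝ) ≤ ((b + w : ℕ) : ℝ) := by exact_mod_cast hlt.le
    linarith
  rw [e3]
  have key : 2 * m + hi' ≤ b + w + (y + 3) := by
    rcases Nat.lt_or_ge ((b - g + 1) / 2) (hi' - g) with h | h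
    · rcases hW with h5 | h5 <;> omega
    · omega
  have key' : 2 * (m : ℝ) + hi' ≤ ((b + w : ℕ) : ℝ) + ((y + 3 : ℕ) : ℝ) := by exact_mod_cast key
  linarith

/-- **(LOW)** -/
theorem LOW2 (hyp : CaseHyp c D K K') :
    ∀ d d' r0 r1 r0' r1', IsDesc c K d r0 r1 → IsDesc c K' d' r0' r1' → d.IsP →
    d.hi c ≤ K' → d.lo ≤ d'.lo → (d'.IsP → d.lo < d'.lo) → d'.hi c < d.hi c →
    FarOK D c K K' r0 r1 r0' r1' := by
  intro d d' r0 r1 r0' r1' hd hd' hP h1 h2 h3 h4
  have hc := hyp.c20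
  have hg := hyp.g
  have H := hyp.O
  have H' := hyp.O'
  have hk := hyp.F
  have h16 : 16 * CC c ≤ gth c K := (farNum_mk hc (by have := hyp.epo; omega) hyp.g).g16
  have hC := CC_ge hc
  have hHR : RegCodes c 40 D := hyp.D.reg
  have hT : ∀ e, 40 ≤ e → (D.T e).card ^ 2 ≤ 2 ^ D.W e := hyp.D.T
  have t1 := top_desc hHR hd
  have t2 := top_desc hHR hd'
  have z2 : ∀ Z, ZoneOf D r0' r1' Z → ZFacts Z d'.lo (d'.hi c) := fun Z hZ =>
    zfacts_desc hHR hT (by omega) H' hd' hZ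
  have l1 := desc_le hd
  have l2 := desc_le hd'
  have L := loD_of (by omega) H' (by norm_num) hd'
  have oc : Occ c K d := ⟨r0, r1, hd⟩
  have oc' : Occ c K' d' := ⟨r0', r1', hd'⟩
  have hRP' : d'.IsR ∨ d'.IsP := by cases d' <;> simp [Desc.IsR, Desc.IsP]
  have hW' := Wd_pos c d'.lo
  have hdl : d'.lo < d.hi c := by omega
  -- the data of the zone at `K`
  obtain ⟨b, w, hbw, hgb, hw2, hb1, hb2, hbd, hgen⟩ : ∃ b w, d.hi c = b + w ∧ d.lo ≤ b ∧ 2 ∣ w ∧
      (w = 0 ∨ (w = Wd c b ∧ Wd c b ∣ b ∧ (d.lo = 0 ∨ ep c d.lo = ep c b))) ∧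
      (∀ s, s < d.hi c → s ≤ b → Wd c s ∣ d.lo) ∧
      (∀ s, s < d.hi c → s ≤ b → Wd c s ∣ b) ∧
      (∀ n k r₀ Z Z', ZoneOf D r0 r1 Z → Zone.Ok Z' → Zone.Low Z' (d.lo + k) r₀ → d.lo + k ≤ b →
        d.lo + k ≤ Z'.top → Z'.top ≤ b + w → Z'.top ≤ K' → (zcons K K' n Z Z').card ≤
          (2 ^ ((b - d.lo + 1) / 2 - k) + 1) * 2 ^ (w / 2)) := by
    have hg1 := H.K.wbt
    have hg2 := H'.K.wbt
    cases d with
    | RS g b v => exact absurd hP (by simp [Desc.IsP])
    | R b v => exact absurd hP (by simp [Desc.IsP])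
    | RT b v => exact absurd hP (by simp [Desc.IsP])
    | RTh b v => exact absurd hP (by simp [Desc.IsP])
    | P g e =>
      obtain ⟨rfl, h0, h5, h6, h7, h8⟩ := hd
      change g ≤ d'.lo at h2
      change d'.hi c < e at h4
      change d'.lo < e at hdl
      change e ≤ K' at h1
      have hcut : KCut c K e := by
        rcases h8 with h8 | h8
        · exact Or.inr (Or.inl h8)
        · exact Or.inr (Or.inr (by
            rw [h7 (e - 1) (by omega) (by omega)]
            exact fun h => h8 h.symm))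
      obtain ⟨d1, d2⟩ := H.S.P g g (by omega) (h7 g le_rfl h5) e h5 h6 hcut h7
      refine ⟨e, 0, rfl, h5.le, dvd_zero _, Or.inl rfl, fun s hs _ => ?_, fun s hs _ => ?_, ?_⟩
      · exact (Wd_dvd (by show s ≤ e - 1; have : s < e := hs; omega)).trans d2
      · exact (Wd_dvd (by show s ≤ e - 1; have : s < e := hs; omega)).trans d1
      · intro n k r₀ Z Z' hZ ho' hlow k1 k2 k3 k4
        obtain ⟨a, κ, -, rfl⟩ := zoneOf_notPT h0 hZ
        change Zone.Low Z' (g + k) r₀ at hlow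
        change g + k ≤ e at k1
        change g + k ≤ Z'.top at k2
        show _ ≤ (2 ^ ((e - g + 1) / 2 - k) + 1) * 2 ^ (0 / 2)
        rw [Nat.zero_div, pow_zero, mul_one]
        exact low_P D (r₀ := r₀) (hyp.D.pc _) ho' hlow k1 (by omega) k4 k2 k3
    | PT g b =>
      obtain ⟨rfl, h0, h5, h6, h7, h8, h9⟩ := hd
      change g ≤ d'.lo at h2
      change d'.hi c < b + Wd c b at h4
      change d'.lo < b + Wd c b at hdl
      change b + Wd c b ≤ K' at h1
      obtain ⟨d1, d2, -, -, d5, d6⟩ := desc_PT H (by omega) h5 (by omega) h8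
      have hw2 : 2 ∣ Wd c b := dvd_pow (two_dvd_CC hc) (by omega)
      refine ⟨b, Wd c b, rfl, h5, hw2, Or.inr ⟨rfl, d1, d6⟩, fun s _ hs => ?_, fun s _ hs => ?_, ?_⟩
      · exact (Wd_dvd hs).trans d2
      · exact (Wd_dvd hs).trans d1
      · intro n k r₀ Z Z' hZ ho' hlow k1 k2 k3 k4
        obtain ⟨a, κ, -, rfl⟩ := zoneOf_notPT h0 hZ
        have hWe : D.W (ep c b) = Wd c b := hyp.D.W _
        change Zone.Low Z' (g + k) r₀ at hlow
        change g + k ≤ b at k1
        change g + k ≤ Z'.top at k2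
        show _ ≤ (2 ^ ((b - g + 1) / 2 - k) + 1) * 2 ^ (Wd c b / 2)
        refine (low_PT D (r₀ := r₀) (k := k) (hyp.D.pc _) ho' hlow k1
          (by rw [hWe]; omega) k4 k2 (by rw [hWe]; exact k3)).trans ?_
        apply Nat.mul_le_mul_left
        have hTc := hT _ d5
        rw [hWe] at hTc
        have e2 : 2 ^ Wd c b = (2 ^ (Wd c b / 2)) ^ 2 := by
          rw [← pow_mul, Nat.div_mul_cancel hw2]
        rw [e2] at hTc
        exact (Nat.pow_le_pow_iff_left (by norm_num)).mp hTc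
  have hcard : d'.lo ≤ b → ∀ n Z Z', ZoneOf D r0 r1 Z → ZoneOf D r0' r1' Z' →
      (zcons K K' n Z Z').card ≤ (2 ^ ((b - d.lo + 1) / 2 - (d'.lo - d.lo)) + 1) * 2 ^ (w / 2) := by
    intro hb n Z Z' hZ hZ'
    have f' := z2 Z' hZ'
    obtain ⟨r₀, hlow⟩ := f'.low
    refine hgen n (d'.lo - d.lo) r₀ Z Z' hZ f'.ok ?_ (by omega) (by rw [f'.top]; omega)
      (by rw [f'.top]; omega) (by rw [f'.top]; omega)
    rw [show d.lo + (d'.lo - d.lo) = d'.lo by omega]
    exact hlow
  -- the bottom is not in the block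
  have hlb : d'.lo ≤ b := by
    rcases hb1 with h | ⟨h, hdb, -⟩
    · omega
    · by_contra hlt
      push Not at hlt
      have := low_add_le hlt hdb (L.lo b hlt)
      omega
  have hKK : K' ≤ K := by omega
  have hmono : ∀ x y, x ≤ y → (10 * CC c + 9) * y ≤ 10 * CC c * (K - K') →
      (10 * CC c + 5) * x ≤ 10 * CC c * (K - K') := fun x y hxy hy =>
    (Nat.mul_le_mul (by omega) hxy).trans hy
  -- same bottom, with a block at the bottom of the second zone
  by_cases hsame : d.lo = d'.lo ∧ d'.Ip c = d'.lo + Wd c d'.lo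
  · obtain ⟨heq, hIp⟩ := hsame
    have hR' : d'.IsR := by
      rcases hRP' with h | h
      · exact h
      · exact absurd (h3 h) (by omega)
    have F1 := hk.F1 d d' oc oc' hP hR' h2
    rw [hbw, hIp, ← heq] at F1
    rcases L.ip hR' with h | ⟨-, hdv, hle, h0, hdh⟩
    · exfalso; omega
    · rw [← heq] at hdv h0 hdh hIp hW'
      have hWb : Wd c d.lo ∣ b := hbd d.lo (by omega) hgb
      have hhb : d'.hi c ≤ b ∧ (Wd c d.lo ≤ w ∨ d'.hi c + Wd c d.lo ≤ b) := by
        rcases hb1 with h | ⟨h, hdb, hep⟩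
        · have := low_add_le (w := Wd c d.lo) (show d'.hi c < b by omega) hdh hWb
          exact ⟨by omega, Or.inr this⟩
        · have hWW : Wd c d.lo = Wd c b := by
            rcases hep with h5 | h5
            · omega
            · unfold Wd; rw [h5]
          refine ⟨?_, Or.inl (by omega)⟩
          by_contra hlt
          push Not at hlt
          have := low_add_le hlt hWb hdh
          omega
      refine low_num2 (g := d.lo) (W := Wd c d.lo) (N := (2 * 2 ^ ((d'.hi c - d.lo) / 2)) *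
        ((2 ^ ((b - d.lo + 1) / 2 - (d'.hi c - d.lo)) + 1) * 2 ^ (w / 2))) hc hg
        (t1.trans hbw) t2 hgb (by omega) hhb.1 (by omega) (by omega) hhb.2 hW' F1 h16 le_rfl ?_
      intro n Z Z' hZ hZ'
      have f' := z2 Z' hZ'
      have htop := f'.top
      refine (zcons_le_singles (M := (2 ^ ((b - d.lo + 1) / 2 - (d'.hi c - d.lo)) + 1) *
        2 ^ (w / 2)) ?_).trans (Nat.mul_le_mul_right _ ?_)
      · intro s' hs'
        refine hgen n (d'.hi c - d.lo) (s' % 2 ^ (d.lo + (d'.hi c - d.lo))) Z ⟨Z'.top, {s'}⟩ hZ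
          ?_ ?_ (by omega) ?_ ?_ ?_
        · intro s hs
          simp only [mem_singleton] at hs
          rw [hs]
          exact f'.ok _ hs'
        · intro s hs
          simp only [mem_singleton] at hs
          rw [hs]
        · show _ ≤ Z'.top
          omega
        · show Z'.top ≤ _
          omega
        · show Z'.top ≤ _
          omega
      · refine card_le_of_sq (f'.card.trans (le_of_eq ?_))
        rw [← heq]
  have hIp' : d'.IsR → d'.Ip c = d'.lo ∨ (d'.Ip c = d'.lo + Wd c d'.lo ∧ d.lo < d'.lo) := by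
    intro hR'
    rcases L.ip hR' with h | ⟨h, -⟩
    · exact Or.inl h
    · refine Or.inr ⟨h, ?_⟩
      rcases Nat.eq_or_lt_of_le h2 with heq | hlt
      · exact absurd ⟨heq, h⟩ hsame
      · exact hlt
  rcases Nat.lt_or_ge (d'.lo - d.lo) ((b - d.lo + 1) / 2) with hcase | hcase
  · refine low_num (g := d.lo) (lo' := d'.lo) (x := (b + w - d'.lo) - (d'.lo - d.lo)) hc hg
      (t1.trans hbw) t2 hgb hw2 h2 (by omega) (by omega) ?_ (fun _ => by omega)
      (fun h => by omega) h16 le_rfl (hcard hlb)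
    rcases hRP' with hR' | hP'
    · have F1 := hk.F1 d d' oc oc' hP hR' h2
      rw [hbw] at F1
      rcases hIp' hR' with h | ⟨h, hlt⟩
      · rw [h] at F1
        exact hmono _ _ (by omega) F1
      · rcases L.ip hR' with h' | ⟨-, hdv, -⟩
        · omega
        · have h14 := low_add_le hlt (hb2 d'.lo hdl hlb) hdv
          rw [h] at F1
          exact hmono _ _ (by omega) F1
    · have F1P := hk.F1P d d' oc oc' hP hP' (h3 hP')
      rw [hbw] at F1P
      exact hmono _ _ (by omega) F1P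
  · rcases Nat.lt_or_ge b (d'.hi c) with hbh | hbh
    · refine low_num (g := d.lo) (lo' := d'.lo) (x := d'.hi c - b) hc hg
        (t1.trans hbw) t2 hgb hw2 h2 (by omega) (by omega) ?_ (fun h => by omega)
        (fun h => by omega) h16 le_rfl (hcard hlb)
      rcases hRP' with hR' | hP'
      · have F1 := hk.F1 d d' oc oc' hP hR' h2
        rw [hbw] at F1
        refine hmono _ _ ?_ F1
        rcases L.ip hR' with h | ⟨h, hdv, hle, h0, hdh⟩
        · omega
        · rcases Nat.eq_or_lt_of_le hlb with heq | hlt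
          · exfalso
            rcases hb1 with h5 | ⟨h5, hdb, -⟩
            · omega
            · rw [heq] at h
              omega
          · have := low_add_le hlt hdv (hbd d'.lo hdl hlb)
            omega
      · have F1P := hk.F1P d d' oc oc' hP hP' (h3 hP')
        rw [hbw] at F1P
        exact hmono _ _ (by omega) F1P
    · refine low_num (g := d.lo) (lo' := d'.lo) (x := 0) hc hg
        (t1.trans hbw) t2 hgb hw2 h2 (by omega) (by omega) ?_ (fun h => by omega)
        (fun h => by omega) h16 le_rfl (hcard hlb)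
      rw [mul_zero]
      exact Nat.zero_le _

end Pool.Agent.E2S
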