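import Mathlib
import Pool.Agent.ETS.FM

/-!
# E-T (MP_12a1af_nt), phase 2: the factorial moment lemma on a fibre

The same as `ETS.factMoment`, but the coordinates in `U₁` are prescribed.
-/

open Finset

namespace Pool.Agent.E2

open Pool.Agent.ETS

variable {ι : Type*} [Fintype ι] [DecidableEq ι] {X : ι → Type*} [∀ i, Fintype (X i)]
  [∀ i, DecidableEq (X i)]

variable {Ω : Type*} [Fintype Ω] [DecidableEq Ω]

open Classical in
/-- **The factorial moment lemma on a fibre.** -/
theorem factMoment_fib (S : Ω → Finset ι) (E : Ω → (∀ i, X i) → Prop)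
    (hE : ∀ w x y, (∀ i ∈ S w, y i = x i) → (E w y ↔ E w x)) (R : Ω → Ω → Prop)
    (U₁ U₀ : Finset ι) (hU : U₁ ⊆ U₀) (x₀ : ∀ i, X i) (B : ℝ) (hB0 : 0 ≤ B) (t : ℕ)
    (hB : ∀ T : Finset Ω, T.card ≤ t → ∀ x : (∀ i, X i),
      ∑ y ∈ fib (U₀ ∪ T.biUnion S) x, (nnew E R T y : ℝ) ≤ B * (fib (U₀ ∪ T.biUnion S) x).card) :
    ∀ s ≤ t + 1, ∑ x ∈ fib U₁ x₀, (ntup E R s x : ℝ) ≤ B ^ s * (fib U₁ x₀).card := by
  intro s
  induction s with
  | zero =>
    intro _
    simp only [pow_zero, one_mul]
    have : ∀ x : (∀ i, X i), (ntup E R 0 x : ℝ) ≤ 1 := by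
      intro x
      have : ntup E R 0 x ≤ (univ : Finset (Fin 0 → Ω)).card := Finset.card_le_card (filter_subset _ _)
      have h2 : (univ : Finset (Fin 0 → Ω)).card = 1 := by simp
      rw [h2] at this
      exact_mod_cast this
    calc ∑ x ∈ fib U₁ x₀, (ntup E R 0 x : ℝ) ≤ ∑ x ∈ fib U₁ x₀, (1 : ℝ) :=
          Finset.sum_le_sum (fun x _ => this x)
      _ = (fib U₁ x₀).card := by simp
  | succ s ih =>
    intro hs
    have ih' := ih (by omega)
    -- decompose the tuples
    have key : ∀ x : (∀ i, X i), (ntup E R (s+1) x : ℝ) =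
        ∑ f : Fin s → Ω, (if (∀ j, E (f j) x) ∧ ∀ i j, i < j → R (f i) (f j) then (1:ℝ) else 0) *
          (nnew E R (univ.image f) x : ℝ) := by
      intro x
      unfold ntup nnew
      rw [Finset.card_filter]
      push_cast
      rw [← (Fin.snocEquiv (fun _ : Fin (s+1) => Ω)).sum_comp]
      rw [Fintype.sum_prod_type, Finset.sum_comm]
      refine Finset.sum_congr rfl (fun f _ => ?_)
      rw [Finset.card_filter]
      push_cast
      rw [Finset.mul_sum]
      refine Finset.sum_congr rfl (fun w _ => ?_)
      have hiff : ((∀ j, E ((Fin.snocEquiv (fun _ : Fin (s+1) => Ω)) (w, f) j) x) ∧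
          ∀ i j, i < j → R ((Fin.snocEquiv (fun _ : Fin (s+1) => Ω)) (w, f) i)
            ((Fin.snocEquiv (fun _ : Fin (s+1) => Ω)) (w, f) j)) ↔
          (((∀ j, E (f j) x) ∧ ∀ i j, i < j → R (f i) (f j)) ∧
            (E w x ∧ ∀ w' ∈ univ.image f, R w' w)) := by
        simp only [Fin.snocEquiv, Equiv.coe_fn_mk, Finset.mem_image, Finset.mem_univ, true_and,
          forall_exists_index, forall_apply_eq_imp_iff]
        constructor
        · rintro ⟨h1, h2⟩
          refine ⟨⟨fun j => ?_, fun i j hij => ?_⟩, ?_, fun j => ?_⟩
          · simpa using h1 j.castSucc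
          · have := h2 i.castSucc j.castSucc (by simpa using hij)
            simpa using this
          · simpa using h1 (Fin.last s)
          · have := h2 j.castSucc (Fin.last s) (Fin.castSucc_lt_last j)
            simpa using this
        · rintro ⟨⟨h1, h2⟩, h3, h4⟩
          refine ⟨fun j => ?_, fun i j hij => ?_⟩
          · refine Fin.lastCases ?_ (fun j => ?_) j
            · simpa using h3
            · simpa using h1 j
          · revert hij
            refine Fin.lastCases ?_ (fun j => ?_) j
            · refine Fin.lastCases ?_ (fun i => ?_) i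
              · intro h; exact absurd h (lt_irrefl _)
              · intro _
                simpa using h4 i
            · refine Fin.lastCases ?_ (fun i => ?_) i
              · intro h
                exact absurd h (not_lt.mpr (Fin.le_last _))
              · intro h
                have := h2 i j (by simpa using h)
                simpa using this
      by_cases hA : ((∀ j, E (f j) x) ∧ ∀ i j, i < j → R (f i) (f j))
      · by_cases hB : (E w x ∧ ∀ w' ∈ univ.image f, R w' w)
        · rw [if_pos (hiff.mpr ⟨hA, hB⟩), if_pos hA, if_pos hB]; ring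
        · rw [if_neg (fun h => hB (hiff.mp h).2), if_pos hA, if_neg hB]; ring
      · rw [if_neg (fun h => hA (hiff.mp h).1), if_neg hA]; ring
    have hind : ∀ (F : (∀ i, X i) → ℝ), ∑ x ∈ fib U₁ x₀, F x =
        ∑ x : (∀ i, X i), (if x ∈ fib U₁ x₀ then F x else 0) := by
      intro F
      rw [← Finset.sum_filter]
      refine Finset.sum_congr ?_ (fun _ _ => rfl)
      ext x; simp
    calc ∑ x ∈ fib U₁ x₀, (ntup E R (s+1) x : ℝ)
        = ∑ f : Fin s → Ω, ∑ x : (∀ i, X i),
          (if x ∈ fib U₁ x₀ then
            (if (∀ j, E (f j) x) ∧ ∀ i j, i < j → R (f i) (f j) then (1:ℝ) else 0) else 0) *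
          (nnew E R (univ.image f) x : ℝ) := by
          rw [Finset.sum_comm, hind]
          refine Finset.sum_congr rfl (fun x _ => ?_)
          split_ifs with hx
          · rw [key x]
          · simp
      _ ≤ ∑ f : Fin s → Ω, B * ∑ x : (∀ i, X i), (if x ∈ fib U₁ x₀ then
          (if (∀ j, E (f j) x) ∧ ∀ i j, i < j → R (f i) (f j) then (1:ℝ) else 0) else 0) := by
          refine Finset.sum_le_sum (fun f _ => ?_)
          refine sum_avg_le (U₀ ∪ (univ.image f).biUnion S) _ _ ?_ ?_ B ?_
          · intro x y hy
            have hmem : y ∈ fib U₁ x₀ ↔ x ∈ fib U₁ x₀ := by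
              rw [mem_fib] at hy
              rw [mem_fib, mem_fib]
              constructor
              · intro h i hi
                rw [← hy i (mem_union_left _ (hU hi))]; exact h i hi
              · intro h i hi
                rw [hy i (mem_union_left _ (hU hi))]; exact h i hi
            rw [mem_fib] at hy
            have : ∀ j, E (f j) y ↔ E (f j) x := by
              intro j
              refine hE (f j) x y (fun i hi => hy i ?_)
              refine mem_union_right _ (mem_biUnion.mpr ⟨f j, mem_image_of_mem _ (mem_univ j), hi⟩)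
            have h2 : ((∀ j, E (f j) y) ∧ ∀ i j, i < j → R (f i) (f j)) ↔
                ((∀ j, E (f j) x) ∧ ∀ i j, i < j → R (f i) (f j)) := by
              simp only [this]
            simp only [h2, hmem]
          · intro x
            split_ifs <;> norm_num
          · intro x
            refine hB (univ.image f) ?_ x
            calc (univ.image f).card ≤ (univ : Finset (Fin s)).card := Finset.card_image_le
              _ = s := by simp
              _ ≤ t := by omega
      _ = B * ∑ x ∈ fib U₁ x₀, (ntup E R s x : ℝ) := by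
          rw [← Finset.mul_sum, Finset.sum_comm, hind]
          congr 1
          refine Finset.sum_congr rfl (fun x _ => ?_)
          by_cases hx : x ∈ fib U₁ x₀
          · simp only [if_pos hx]
            unfold ntup
            rw [Finset.card_filter]
            push_cast
            rfl
          · simp [hx]
      _ ≤ B * (B ^ s * (fib U₁ x₀).card) := mul_le_mul_of_nonneg_left ih' hB0
      _ = B ^ (s+1) * (fib U₁ x₀).card := by ring

end Pool.Agent.E2
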