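import Mathlib
import Pool.Agent.ETS.Far2

/-!
# E-T (MP_12a1af_nt), phase 2: counting the hash values for one pair of variable tuples

The same as `ETS.Far2`, but the hash values of the regions `m ∈ NF L` may be known.
-/

open Finset

namespace Pool.Agent.E2

open Pool.Agent.ETS

section

variable {M N Kmax : ℕ} (lay : ℕ → Lay N)

/-- hash indices used by `z` in the regions `m ∈ [i, M)` which are not prescribed -/
def hidxF (NF : ℕ → Finset ℕ) (L : Fin (Kmax+1)) (z : Fin M → Fin N) (i : ℕ) :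
    Finset (Ind M N Kmax) :=
  (univ.filter (fun m : Fin M => i ≤ m.val ∧ m.val ∉ NF L.val)).image
    (fun m => (L, m, key (lay L) m.val z))

lemma mem_hidxF {NF : ℕ → Finset ℕ} {L : Fin (Kmax+1)} {z : Fin M → Fin N} {i : ℕ}
    {q : Ind M N Kmax} : q ∈ hidxF lay NF L z i ↔
      ∃ m : Fin M, i ≤ m.val ∧ m.val ∉ NF L.val ∧ q = (L, m, key (lay L) m.val z) := by
  simp only [hidxF, mem_image, mem_filter, mem_univ, true_and]
  constructor
  · rintro ⟨m, ⟨hm, hm2⟩, rfl⟩; exact ⟨m, hm, hm2, rfl⟩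
  · rintro ⟨m, hm, hm2, rfl⟩; exact ⟨m, ⟨hm, hm2⟩, rfl⟩

lemma prod_hidxF (NF : ℕ → Finset ℕ) (nl : ℕ → ℕ)
    (hnf : ∀ L ≤ Kmax, ∑ m ∈ (range M).filter (fun m => m ∈ NF L), (lay L).len m ≤ nl L)
    (hG : GoodLay M lay Kmax) (L : Fin (Kmax+1)) (z : Fin M → Fin N) {i : ℕ} (hi : i ≤ M) :
    2 ^ (L.val - (lay L).bot i) ≤
      2 ^ nl L.val * ∏ q ∈ hidxF lay NF L z i, Fintype.card (Xsp lay q) := by
  classical
  rw [← prod_hidx lay hG L z hi]
  unfold hidx hidxF
  rw [prod_image (by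
    intro a _ b _ hab
    simp only [Prod.mk.injEq] at hab
    exact hab.2.1), prod_image (by
    intro a _ b _ hab
    simp only [Prod.mk.injEq] at hab
    exact hab.2.1)]
  have hL : L.val ≤ Kmax := by have := L.isLt; omega
  simp only [Fintype.card_fin]
  set A := univ.filter (fun m : Fin M => i ≤ m.val ∧ m.val ∉ NF L.val) with hA
  set B := univ.filter (fun m : Fin M => m.val ∈ NF L.val) with hB
  have hd : Disjoint B A := by
    rw [Finset.disjoint_left]
    intro m hm hm2
    rw [hB, mem_filter] at hm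
    rw [hA, mem_filter] at hm2
    exact hm2.2.2 hm.2
  have hsub : univ.filter (fun m : Fin M => i ≤ m.val) ⊆ B ∪ A := by
    intro m hm
    rw [mem_filter] at hm
    rw [mem_union, hA, hB, mem_filter, mem_filter]
    by_cases h : m.val ∈ NF L.val
    · left; exact ⟨mem_univ _, h⟩
    · right; exact ⟨mem_univ _, hm.2, h⟩
  have h1 : ∏ m ∈ univ.filter (fun m : Fin M => i ≤ m.val), 2 ^ (lay L).len m.val ≤
      ∏ m ∈ B ∪ A, 2 ^ (lay L).len m.val :=
    Finset.prod_le_prod_of_subset_of_one_le' hsub (fun m _ _ => Nat.one_le_two_pow)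
  refine h1.trans ?_
  rw [prod_union hd]
  refine Nat.mul_le_mul_right _ ?_
  rw [Finset.prod_pow_eq_pow_sum]
  refine Nat.pow_le_pow_right (by norm_num) ?_
  refine le_trans (le_of_eq ?_) (hnf L hL)
  rw [hB, Finset.sum_filter, Finset.sum_filter]
  exact Fin.sum_univ_eq_sum_range (fun m => if m ∈ NF L.val then (lay L).len m else 0) M

/-- the number of hash values in a fibre for which the pair `(z, z')` is a solution -/
lemma card_sol_le2 (NF : ℕ → Finset ℕ) (nl : ℕ → ℕ)
    (hnf : ∀ L ≤ Kmax, ∑ m ∈ (range M).filter (fun m => m ∈ NF L), (lay L).len m ≤ nl L) (hG : GoodLay M lay Kmax) {K K' : Fin (Kmax+1)} (hKK : K' < K) (n : ℕ)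
    (z z' : Fin M → Fin N) (U : Finset (Ind M N Kmax)) (x : ∀ q : Ind M N Kmax, Xsp lay q)
    {i i' : ℕ} (hi : i < M) (hi' : i' < M)
    (h1 : ∀ m : Fin M, m.val ≤ i → (K, m, key (lay K) m.val z) ∈ U)
    (h2 : ∀ m : Fin M, i < m.val → m.val ∉ NF K.val → (K, m, key (lay K) m.val z) ∉ U)
    (h1' : ∀ m : Fin M, m.val ≤ i' → (K', m, key (lay K') m.val z') ∈ U)
    (h2' : ∀ m : Fin M, i' < m.val → m.val ∉ NF K'.val → (K', m, key (lay K') m.val z') ∉ U)
    (μ : ℕ)
    (hμ : μ = max ((lay K').bot (i'+1)) (min ((lay K).bot (i+1)) K'.val)) :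
    ((fib U x).filter (fun y => elt lay K y z + elt lay K' y z' = n)).card *
      2 ^ ((K.val - (lay K).bot (i+1)) + (K'.val - (lay K').bot (i'+1))) ≤
      2 ^ (nl K.val + nl K'.val) * (2 ^ (K'.val - μ) * (fib U x).card) := by
  classical
  have hKm : K.val ≤ Kmax := by have := K.isLt; omega
  have hKm' : K'.val ≤ Kmax := by have := K'.isLt; omega
  set Q := hidxF lay NF K z (i+1) ∪ hidxF lay NF K' z' (i'+1) with hQ
  have hdQ : Disjoint (hidxF lay NF K z (i+1)) (hidxF lay NF K' z' (i'+1)) := by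
    rw [Finset.disjoint_left]
    intro q hq hq'
    rw [mem_hidxF] at hq hq'
    obtain ⟨m, _, _, rfl⟩ := hq
    obtain ⟨m', _, _, h⟩ := hq'
    simp only [Prod.mk.injEq] at h
    exact absurd h.1 (ne_of_gt hKK)
  have hdU : Disjoint U Q := by
    rw [Finset.disjoint_left]
    intro q hq hq'
    rw [hQ, mem_union, mem_hidxF, mem_hidxF] at hq'
    rcases hq' with ⟨m, hm, hmn, rfl⟩ | ⟨m, hm, hmn, rfl⟩
    · exact h2 m (by omega) hmn hq
    · exact h2' m (by omega) hmn hq
  have hcard := card_fib_union (X := fun q : Ind M N Kmax => Xsp lay q) hdU x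
  have hprod : 2 ^ ((K.val - (lay K).bot (i+1)) + (K'.val - (lay K').bot (i'+1))) ≤
      2 ^ (nl K.val + nl K'.val) * ∏ q ∈ Q, Fintype.card (Xsp lay q) := by
    rw [hQ, prod_union hdQ, pow_add, pow_add]
    have p1 := prod_hidxF lay NF nl hnf hG K z (i := i+1) (by omega)
    have p2 := prod_hidxF lay NF nl hnf hG K' z' (i := i'+1) (by omega)
    calc 2 ^ (K.val - (lay K).bot (i+1)) * 2 ^ (K'.val - (lay K').bot (i'+1)) ≤
        (2 ^ nl K.val * ∏ q ∈ hidxF lay NF K z (i+1), Fintype.card (Xsp lay q)) *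
        (2 ^ nl K'.val * ∏ q ∈ hidxF lay NF K' z' (i'+1), Fintype.card (Xsp lay q)) :=
          Nat.mul_le_mul p1 p2
      _ = _ := by ring
  -- main count
  set Y := (fib U x).filter (fun y => elt lay K y z + elt lay K' y z' = n) with hY
  set v : (∀ q : Ind M N Kmax, Xsp lay q) → ℕ :=
    fun y => pval (lay K').bot (dig lay K' y z') M with hv
  have hb0 := hG.bot0 K hKm
  have hb0' := hG.bot0 K' hKm'
  have hbm := hG.mono K hKm
  have hbm' := hG.mono K' hKm'
  have hagree : ∀ y ∈ Y, ∀ y' ∈ Y, pval (lay K).bot (dig lay K y z) (i+1) =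
      pval (lay K).bot (dig lay K y' z) (i+1) := by
    intro y hy y' hy'
    rw [hY, mem_filter, mem_fib] at hy hy'
    refine pval_congr (fun m hm => dig_congr lay (fun hmM => ?_))
    rw [hy.1 _ (h1 ⟨m, hmM⟩ (by simpa using Nat.lt_succ_iff.mp hm)),
      hy'.1 _ (h1 ⟨m, hmM⟩ (by simpa using Nat.lt_succ_iff.mp hm))]
  have hagree' : ∀ y ∈ Y, ∀ y' ∈ Y, pval (lay K').bot (dig lay K' y z') (i'+1) =
      pval (lay K').bot (dig lay K' y' z') (i'+1) := by
    intro y hy y' hy'
    rw [hY, mem_filter, mem_fib] at hy hy'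
    refine pval_congr (fun m hm => dig_congr lay (fun hmM => ?_))
    rw [hy.1 _ (h1' ⟨m, hmM⟩ (by simpa using Nat.lt_succ_iff.mp hm)),
      hy'.1 _ (h1' ⟨m, hmM⟩ (by simpa using Nat.lt_succ_iff.mp hm))]
  have hvmod : ∀ y ∈ Y, ∀ y' ∈ Y, v y ≡ v y' [MOD 2 ^ μ] := by
    intro y hy y' hy'
    have hA : v y ≡ v y' [MOD 2 ^ (lay K').bot (i'+1)] := by
      obtain ⟨u, hu⟩ := pval_split (w := dig lay K' y z') hbm' (j := i'+1) (m := M) (by omega)
      obtain ⟨u', hu'⟩ := pval_split (w := dig lay K' y' z') hbm' (j := i'+1) (m := M) (by omega)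
      simp only [hv]
      rw [hu, hu', hagree' y hy y' hy']
      refine Nat.ModEq.add_left _ ?_
      exact (Nat.modEq_zero_iff_dvd.mpr (Dvd.intro _ rfl)).trans
        (Nat.modEq_zero_iff_dvd.mpr (Dvd.intro _ rfl)).symm
    have hB : v y ≡ v y' [MOD 2 ^ (lay K).bot (i+1)] := by
      obtain ⟨u, hu⟩ := pval_split (w := dig lay K y z) hbm (j := i+1) (m := M) (by omega)
      obtain ⟨u', hu'⟩ := pval_split (w := dig lay K y' z) hbm (j := i+1) (m := M) (by omega)
      have hyn := (mem_filter.mp hy).2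
      have hyn' := (mem_filter.mp hy').2
      unfold elt at hyn hyn'
      rw [hu] at hyn
      rw [hu', ← hagree y hy y' hy'] at hyn'
      simp only [hv]
      have e : 2 ^ (lay K).bot (i+1) * u + pval (lay K').bot (dig lay K' y z') M =
          2 ^ (lay K).bot (i+1) * u' + pval (lay K').bot (dig lay K' y' z') M := by omega
      have e2 : (2 ^ (lay K).bot (i+1) * u + pval (lay K').bot (dig lay K' y z') M)
          ≡ (2 ^ (lay K).bot (i+1) * u' + pval (lay K').bot (dig lay K' y' z') M)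
          [MOD 2 ^ (lay K).bot (i+1)] := by rw [e]
      have f1 : (2 ^ (lay K).bot (i+1) * u) ≡ (2 ^ (lay K).bot (i+1) * u')
          [MOD 2 ^ (lay K).bot (i+1)] :=
        (Nat.modEq_zero_iff_dvd.mpr (Dvd.intro _ rfl)).trans
        (Nat.modEq_zero_iff_dvd.mpr (Dvd.intro _ rfl)).symm
      exact Nat.ModEq.add_left_cancel f1 e2
    rw [hμ]
    rcases le_total ((lay K').bot (i'+1)) (min ((lay K).bot (i+1)) K'.val) with h | h
    · rw [max_eq_right h]
      exact hB.of_dvd (pow_dvd_pow 2 (min_le_left _ _))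
    · rw [max_eq_left h]
      exact hA
  have hμK : μ ≤ K'.val := by
    rw [hμ]
    refine max_le ?_ (min_le_right _ _)
    have h9 : (lay K').bot (i'+1) ≤ (lay K').bot M := hbm' (by omega)
    rwa [hG.top K' hKm'] at h9
  have hvlt : ∀ y, v y < 2 ^ K'.val := by
    intro y
    have := pval_lt hb0' hbm' (dig_lt lay K' y z') M
    rw [hG.top K' hKm'] at this
    exact this
  have himg : (Y.image v).card ≤ 2 ^ (K'.val - μ) := by
    rcases Y.eq_empty_or_nonempty with hYe | ⟨y₀, hy₀⟩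
    · rw [hYe]; simp
    · have : (Y.image v).card ≤ (range (2 ^ (K'.val - μ))).card := by
        refine Finset.card_le_card_of_injOn (fun w => w / 2 ^ μ) ?_ ?_
        · intro w hw
          obtain ⟨y, hy, rfl⟩ := mem_image.mp (Finset.mem_coe.mp hw)
          simp only [coe_range, Set.mem_Iio]
          rw [Nat.div_lt_iff_lt_mul (by positivity), ← pow_add]
          have : K'.val - μ + μ = K'.val := by omega
          rw [this]
          exact hvlt y
        · intro w hw w' hw' hww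
          obtain ⟨y, hy, rfl⟩ := mem_image.mp (Finset.mem_coe.mp hw)
          obtain ⟨y', hy', rfl⟩ := mem_image.mp (Finset.mem_coe.mp hw')
          have a1 := Nat.div_add_mod (v y) (2 ^ μ)
          have a2 := Nat.div_add_mod (v y') (2 ^ μ)
          have a3 : v y % 2 ^ μ = v y' % 2 ^ μ := hvmod y hy y' hy'
          simp only at hww
          rw [← a1, ← a2, hww, a3]
      simpa using this
  have hfibc : ∀ w ∈ Y.image v, (Y.filter (fun y => v y = w)).card ≤ (fib (U ∪ Q) x).card := by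
    intro w hw
    obtain ⟨y₀, hy₀, rfl⟩ := mem_image.mp hw
    rw [card_fib_const (U ∪ Q) x y₀]
    refine card_le_card ?_
    intro y hy
    rw [mem_filter] at hy
    obtain ⟨hyY, hvy⟩ := hy
    rw [mem_fib]
    intro q hq
    rw [mem_union] at hq
    have hyU := (mem_filter.mp hyY).1
    have hyn := (mem_filter.mp hyY).2
    have hyU₀ := (mem_filter.mp hy₀).1
    have hyn₀ := (mem_filter.mp hy₀).2
    rw [mem_fib] at hyU hyU₀
    rcases hq with hq | hq
    · rw [hyU q hq, hyU₀ q hq]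
    · have hv2 : pval (lay K').bot (dig lay K' y z') M = pval (lay K').bot (dig lay K' y₀ z') M := hvy
      have hv1 : pval (lay K).bot (dig lay K y z) M = pval (lay K).bot (dig lay K y₀ z) M := by
        unfold elt at hyn hyn₀
        omega
      rw [hQ, mem_union, mem_hidxF, mem_hidxF] at hq
      rcases hq with ⟨m, hm, _, rfl⟩ | ⟨m, hm, _, rfl⟩
      · exact hash_eq_of_dig_eq lay
          (pval_inj hb0 hbm (dig_lt lay K y z) (dig_lt lay K y₀ z) hv1 m.val m.isLt)
      · exact hash_eq_of_dig_eq lay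
          (pval_inj hb0' hbm' (dig_lt lay K' y z') (dig_lt lay K' y₀ z') hv2 m.val m.isLt)
  have hYc := Finset.card_le_mul_card_image Y _ hfibc
  rw [hcard]
  set PQ := ∏ q ∈ Q, Fintype.card (Xsp lay q) with hPQ
  calc Y.card * 2 ^ ((K.val - (lay K).bot (i+1)) + (K'.val - (lay K').bot (i'+1)))
      ≤ ((fib (U ∪ Q) x).card * 2 ^ (K'.val - μ)) * (2 ^ (nl K.val + nl K'.val) * PQ) :=
        Nat.mul_le_mul (hYc.trans (Nat.mul_le_mul_left _ himg)) hprod
    _ = _ := by ring

end

end Pool.Agent.E2
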