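import Mathlib
import Pool.Agent.Helper3.ETF.Count

/-!
# E-T (MP_12a1af_nt), phase 2: definitions for the far lemma with prescribed hash values

At scale `L` the hash values of the regions `m ∈ NF L` are prescribed.  The regions `m ≤ pad L`
are trivial.  `ct K` is a region of scale `K` whose bottom is above all scales `K' ≤ K - g K`.
-/

open Finset

namespace Pool.Agent.E2

open Pool.Agent.ETS
open Pool.Agent.ETP (vars AK PK mem_vars elt_lt le_elt AK_bounds AK_log)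

section

variable {M N Kmax : ℕ} (lay : ℕ → Lay N)

/-- the prescribed hash indices -/
def nfI (M N Kmax : ℕ) (NF : ℕ → Finset ℕ) : Finset (Ind M N Kmax) :=
  univ.filter (fun q => q.2.1.val ∈ NF q.1.val)

lemma mem_nfI {NF : ℕ → Finset ℕ} {q : Ind M N Kmax} :
    q ∈ nfI M N Kmax NF ↔ q.2.1.val ∈ NF q.1.val := by simp [nfI]

/-- what is needed from the layouts for the probabilistic part -/
structure FarHyp2 (M : ℕ) {N : ℕ} (Kmax : ℕ) (lay : ℕ → Lay N) (pad : ℕ → ℕ) (NF : ℕ → Finset ℕ)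
    (nl ct : ℕ → ℕ) (K0 : ℕ) (g mm : ℕ → ℕ) (ε : ℕ → ℝ) : Prop where
  good : GoodLay M lay Kmax
  padM : ∀ L ≤ Kmax, pad L + 3 ≤ M
  card : ∀ L ≤ Kmax, ∀ i < M, ((lay L).V i).card ^ 2 ≤ 2 ^ (lay L).len i
  triv : ∀ L ≤ Kmax, ∀ i ≤ pad L, ((lay L).V i).card ≤ 1
  /-- the prescribed regions are not among the lowest ones -/
  nf : ∀ L ≤ Kmax, ∀ m ∈ NF L, pad L + 1 < m
  /-- the total length of the prescribed regions -/
  nfl : ∀ L ≤ Kmax, ∑ m ∈ (range M).filter (fun m => m ∈ NF L), (lay L).len m ≤ nl L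
  gpos : ∀ K, 1 ≤ g K
  eps0 : ∀ K, 0 ≤ ε K
  mm : ∀ K ≤ Kmax, ∀ L, K0 ≤ L → L ≤ K → M - pad L ≤ mm K
  ctp : ∀ K, K0 ≤ K → K ≤ Kmax → pad K + 1 ≤ ct K ∧ ct K < M
  ctb : ∀ K, K0 ≤ K → K ≤ Kmax → K < (lay K).bot (ct K) + g K
  far : ∀ K ≤ Kmax, ∀ K', K0 ≤ K' → K' + g K ≤ K → ∃ Nb : ℕ → ℕ → ℕ,
    (∀ i i', pad K + 1 ≤ i → pad K' + 1 ≤ i' → i ≤ ct K → i' < M →
      ∀ n a κ₁ κ₂ a' κ₁' κ₂' co co', a < 2 ^ (lay K).bot (i-1) → a' < 2 ^ (lay K').bot (i'-1) →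
      (ConsSet lay K K' i i' n a κ₁ κ₂ a' κ₁' κ₂' co co').card ≤ Nb i i') ∧
    ∀ i i', pad K + 1 ≤ i → pad K' + 1 ≤ i' → i ≤ ct K → i' < M →
        (Nb i i' : ℝ) * phi lay K K' i i' * 2 ^ (nl K + nl K') ≤ ε K

/-- failure bound of the far part at scale `K` -/
noncomputable def fail2 (mm s : ℕ → ℕ) (ε : ℕ → ℝ) (K : ℕ) : ℝ :=
  (K : ℝ) * 2 ^ (K + 2) * ((mm K : ℝ) ^ 2 * (2 * s K + 1) ^ 2 * ε K) ^ s K

end

end Pool.Agent.E2
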