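import Mathlib
import Pool.Agent.Helper3.E2.FarDefs
import Pool.Agent.Helper3.E2.Far4
import Pool.Agent.Helper3.E2.FM

/-!
# E-T (MP_12a1af_nt), phase 2: the far lemma for one pair of scales
-/

open Finset

namespace Pool.Agent.E2

open Pool.Agent.ETS
open Pool.Agent.ETP (vars AK PK mem_vars elt_lt le_elt AK_bounds AK_log)

section

variable {M N Kmax : ℕ} (lay : ℕ → Lay N)

/-- `zz` is a solution of `a + a' = n` with `a` of scale `K` and `a'` of scale `K'` -/
def FarSol (K K' : Fin (Kmax+1)) (n : ℕ) (zz : (Fin M → Fin N) × (Fin M → Fin N))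
    (x : ∀ q : Ind M N Kmax, Xsp lay q) : Prop :=
  (∀ m : Fin M, zz.1 m ∈ (lay K).V m) ∧ (∀ m : Fin M, zz.2 m ∈ (lay K').V m) ∧
    elt lay K x zz.1 + elt lay K' x zz.2 = n

/-- expected number of new solutions -/
lemma nnew_pair_le {pad : ℕ → ℕ} {NF : ℕ → Finset ℕ} {nl ct : ℕ → ℕ} {K0 : ℕ} {g mm : ℕ → ℕ}
    {ε : ℕ → ℝ} (H : FarHyp2 M Kmax lay pad NF nl ct K0 g mm ε) (K K' : Fin (Kmax+1))
    (hK' : K0 ≤ K'.val) (hKK : K'.val + g K ≤ K.val) (n t : ℕ)
    (T : Finset ((Fin M → Fin N) × (Fin M → Fin N))) (hT : T.card ≤ t)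
    (x : ∀ q : Ind M N Kmax, Xsp lay q) :
    ∑ y ∈ fib (U0 pad NF ∪ T.biUnion (fun w => Sidx lay K (K', w.1, w.2))) x,
      (nnew (fun w y => FarSol lay K K' n w y)
        (fun w' w => Rd (ct K) ((K', w'.1, w'.2) : Cand M N Kmax) (K', w.1, w.2)) T y : ℝ) ≤
      ((mm K : ℝ) ^ 2 * (2 * t + 1) ^ 2 * ε K) *
        (fib (U0 pad NF ∪ T.biUnion (fun w => Sidx lay K (K', w.1, w.2))) x).card := by
  classical
  have hKm : K.val ≤ Kmax := by have := K.isLt; omega
  have hKm' : K'.val ≤ Kmax := by have := K'.isLt; omega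
  have hg := H.gpos K
  set T' : Finset (Cand M N Kmax) := T.image (fun w => (K', w.1, w.2)) with hT'
  have hUeq : U0 pad NF ∪ T.biUnion (fun w => Sidx lay K (K', w.1, w.2)) =
      Uof lay pad NF K T' := by
    unfold Uof
    rw [hT', Finset.image_biUnion]
  rw [hUeq]
  set U := Uof lay pad NF K T' with hU
  have hT'c : T'.card ≤ t := (card_image_le).trans hT
  have hT'K : ∀ w ∈ T', w.1 ≠ K := by
    intro w hw h
    rw [hT', mem_image] at hw
    obtain ⟨w', _, rfl⟩ := hw
    have h1 : K' = K := h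
    rw [h1] at hKK
    omega
  have hlt : K' < K := by
    rw [Fin.lt_def]; omega
  -- sum over candidates
  have h1 : ∑ y ∈ fib U x, (nnew (fun w y => FarSol lay K K' n w y)
        (fun w' w => Rd (ct K) ((K', w'.1, w'.2) : Cand M N Kmax) (K', w.1, w.2)) T y : ℝ) =
      ∑ zz : (Fin M → Fin N) × (Fin M → Fin N),
      (if (∀ m : Fin M, zz.1 m ∈ (lay K).V m) ∧ (∀ m : Fin M, zz.2 m ∈ (lay K').V m) ∧
          (∀ w' ∈ T', Rd (ct K) w' (K', zz.1, zz.2)) then
        (((fib U x).filter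
          (fun y => elt lay K y zz.1 + elt lay K' y zz.2 = n)).card : ℝ)
        else 0) := by
    have e1 : ∀ y, (nnew (fun w y => FarSol lay K K' n w y)
        (fun w' w => Rd (ct K) ((K', w'.1, w'.2) : Cand M N Kmax) (K', w.1, w.2)) T y : ℝ) =
        ∑ zz : (Fin M → Fin N) × (Fin M → Fin N),
        (if (∀ m : Fin M, zz.1 m ∈ (lay K).V m) ∧ (∀ m : Fin M, zz.2 m ∈ (lay K').V m) ∧
          (∀ w' ∈ T', Rd (ct K) w' (K', zz.1, zz.2)) then
          (if elt lay K y zz.1 + elt lay K' y zz.2 = n then (1:ℝ) else 0) else 0) := by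
      intro y
      unfold nnew
      rw [Finset.card_filter]
      push_cast
      refine Finset.sum_congr rfl (fun zz _ => ?_)
      have hR : (∀ w' ∈ T', Rd (ct K) w' ((K', zz.1, zz.2) : Cand M N Kmax)) ↔
          ∀ w' ∈ T, Rd (ct K) ((K', w'.1, w'.2) : Cand M N Kmax) (K', zz.1, zz.2) := by
        rw [hT']
        constructor
        · intro h w' hw'
          exact h _ (mem_image_of_mem _ hw')
        · intro h w' hw'
          rw [mem_image] at hw'
          obtain ⟨w'', hw'', rfl⟩ := hw'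
          exact h _ hw''
      unfold FarSol
      by_cases hA : ((∀ m : Fin M, zz.1 m ∈ (lay K).V m) ∧ (∀ m : Fin M, zz.2 m ∈ (lay K').V m) ∧
        (∀ w' ∈ T', Rd (ct K) w' ((K', zz.1, zz.2) : Cand M N Kmax)))
      · by_cases hB : elt lay K y zz.1 + elt lay K' y zz.2 = n
        · rw [if_pos hA, if_pos hB, if_pos ⟨⟨hA.1, hA.2.1, hB⟩, hR.mp hA.2.2⟩]
        · rw [if_pos hA, if_neg hB, if_neg (fun h => hB h.1.2.2)]
      · rw [if_neg hA, if_neg (fun h => hA ⟨h.1.1, h.1.2.1, hR.mpr h.2⟩)]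
    rw [Finset.sum_congr rfl (fun y _ => e1 y), Finset.sum_comm]
    refine Finset.sum_congr rfl (fun zz _ => ?_)
    split_ifs with hA
    · rw [Finset.card_filter]
      push_cast
      rfl
    · simp
  rw [h1]
  obtain ⟨Nb, hN, hε⟩ := H.far K hKm K' hK' hKK
  obtain ⟨hc1, hc2⟩ := H.ctp K (by omega) hKm
  refine (far_scale2 lay pad NF H.good H.padM H.card H.triv H.nf nl H.nfl hlt (ct K) hc1 hc2 n
    (ε K) Nb (fun i i' h1 h2 h3 h4 => hN i i' h1 h2 h3 h4 n) hε T' hT'K x).trans ?_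
  refine mul_le_mul_of_nonneg_right ?_ (by positivity)
  refine mul_le_mul_of_nonneg_right ?_ (H.eps0 K)
  have a1 : ((M - pad K : ℕ) : ℝ) ≤ mm K := by
    exact_mod_cast H.mm K hKm K (by omega) (le_refl _)
  have a2 : ((M - pad K' : ℕ) : ℝ) ≤ mm K := by exact_mod_cast H.mm K hKm K' hK' (by omega)
  have a3 : ((2 * T'.card + 1 : ℝ)) ≤ 2 * t + 1 := by
    have : (T'.card : ℝ) ≤ t := by exact_mod_cast hT'c
    linarith
  have a4 : ((2 * T'.card + 1 : ℝ)) ^ 2 ≤ (2 * t + 1) ^ 2 :=
    pow_le_pow_left₀ (by positivity) a3 2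
  calc ((M - pad K : ℕ) : ℝ) * ((M - pad K' : ℕ) : ℝ) * (2 * T'.card + 1) ^ 2
      ≤ (mm K : ℝ) * mm K * (2 * t + 1) ^ 2 := by
        refine mul_le_mul ?_ a4 (by positivity) (by positivity)
        exact mul_le_mul a1 a2 (by positivity) (by positivity)
    _ = _ := by ring

lemma sol_congr (K K' : Fin (Kmax+1)) (n : ℕ) (w : (Fin M → Fin N) × (Fin M → Fin N))
    (x y : ∀ q : Ind M N Kmax, Xsp lay q) (h : ∀ q ∈ Sidx lay K (K', w.1, w.2), y q = x q) :
    FarSol lay K K' n w y ↔ FarSol lay K K' n w x := by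
  unfold FarSol
  rw [elt_congr lay K (fun q hq => h q (mem_union_left _ hq)),
    elt_congr lay K' (fun q hq => h q (mem_union_right _ hq))]

/-- elements with the same variables below `c` agree below `bot c` -/
lemma elt_mod_prefix (hG : GoodLay M lay Kmax) {K : Fin (Kmax+1)} {c : ℕ} (hc : c ≤ M)
    {x : ∀ q : Ind M N Kmax, Xsp lay q} {z z' : Fin M → Fin N}
    (h : ∀ m : Fin M, m.val < c → z m = z' m) :
    elt lay K x z ≡ elt lay K x z' [MOD 2 ^ (lay K).bot c] := by
  have hKm : K.val ≤ Kmax := by have := K.isLt; omega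
  have hd : pval (lay K).bot (dig lay K x z) c = pval (lay K).bot (dig lay K x z') c := by
    refine pval_congr (fun m hm => ?_)
    have hmM : m < M := by omega
    have hk : key (lay K) m z = key (lay K) m z' := by
      rw [key_eq_iff]
      exact ⟨fun j hj => h j (by omega), fun j hj => by rw [h j (by omega)]⟩
    rw [dig_val lay x z hmM, dig_val lay x z' hmM, h ⟨m, hmM⟩ hm, hk]
  obtain ⟨u, hu⟩ := pval_split (w := dig lay K x z) (hG.mono K hKm) (j := c) (m := M) hc
  obtain ⟨u', hu'⟩ := pval_split (w := dig lay K x z') (hG.mono K hKm) (j := c) (m := M) hc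
  unfold elt
  rw [hu, hu', hd]
  refine Nat.ModEq.add_left _ (Nat.ModEq.add_left _ ?_)
  exact (Nat.modEq_zero_iff_dvd.mpr (Dvd.intro _ rfl)).trans
    (Nat.modEq_zero_iff_dvd.mpr (Dvd.intro _ rfl)).symm

/-- **The far lemma for one pair of scales**: among the hash functions with the prescribed values
`x₀` on `nfI`, few have `≥ s` pairs of elements of the scales `K`, `K'` with the sum `n`. -/
theorem far_pair {pad : ℕ → ℕ} {NF : ℕ → Finset ℕ} {nl ct : ℕ → ℕ} {K0 : ℕ} {g mm : ℕ → ℕ}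
    {ε : ℕ → ℝ} (H : FarHyp2 M Kmax lay pad NF nl ct K0 g mm ε) (K K' : Fin (Kmax+1))
    (hK' : K0 ≤ K'.val) (hKK : K'.val + g K ≤ K.val) (n s : ℕ)
    (x₀ : ∀ q : Ind M N Kmax, Xsp lay q) :
    (((fib (nfI M N Kmax NF) x₀).filter (fun x => s ≤ (PK lay K K' n x).card)).card : ℝ) ≤
      ((mm K : ℝ) ^ 2 * (2 * s + 1) ^ 2 * ε K) ^ s * (fib (nfI M N Kmax NF) x₀).card := by
  classical
  have hKm : K.val ≤ Kmax := by have := K.isLt; omega
  have hB0 : 0 ≤ ((mm K : ℝ) ^ 2 * (2 * s + 1) ^ 2 * ε K) := by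
    have := H.eps0 K
    positivity
  have hU : nfI M N Kmax NF ⊆ U0 pad NF := by
    intro q hq
    rw [mem_nfI] at hq
    unfold U0
    rw [mem_filter]
    exact ⟨mem_univ _, Or.inr hq⟩
  have hfm := factMoment_fib (X := fun q : Ind M N Kmax => Xsp lay q)
    (S := fun w : (Fin M → Fin N) × (Fin M → Fin N) => Sidx lay K (K', w.1, w.2))
    (E := fun w y => FarSol lay K K' n w y)
    (hE := fun w x y h => sol_congr lay K K' n w x y h)
    (R := fun w' w => Rd (ct K) ((K', w'.1, w'.2) : Cand M N Kmax) (K', w.1, w.2))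
    (U₁ := nfI M N Kmax NF) (U₀ := U0 pad NF) hU x₀
    (B := ((mm K : ℝ) ^ 2 * (2 * s + 1) ^ 2 * ε K)) hB0 s
    (fun T hT x => nnew_pair_le lay H K K' hK' hKK n s T hT x)
    s (Nat.le_succ s)
  refine le_trans ?_ hfm
  rw [Finset.card_filter]
  push_cast
  refine Finset.sum_le_sum (fun x _ => ?_)
  split_ifs with hx
  · -- choose `s` different pairs
    have h1 : 1 ≤ ntup (fun w y => FarSol lay K K' n w y)
        (fun w' w => Rd (ct K) ((K', w'.1, w'.2) : Cand M N Kmax) (K', w.1, w.2)) s x := by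
      obtain ⟨Q, hQsub, hQc⟩ := Finset.exists_subset_card_eq hx
      have hch : ∀ p : Q, ∃ w : (Fin M → Fin N) × (Fin M → Fin N), FarSol lay K K' n w x ∧
          elt lay K x w.1 = p.1.1 ∧ elt lay K' x w.2 = p.1.2 := by
        intro p
        have hp := hQsub p.2
        unfold PK AK at hp
        rw [mem_filter, mem_product, mem_image, mem_image] at hp
        obtain ⟨⟨⟨z, hz, hzq⟩, ⟨z', hz', hzq'⟩⟩, hsum⟩ := hp
        refine ⟨(z, z'), ⟨(mem_vars lay).mp hz, (mem_vars lay).mp hz', ?_⟩, hzq, hzq'⟩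
        show elt lay K x z + elt lay K' x z' = n
        rw [hzq, hzq']; exact hsum
      choose f hf using hch
      let e : Fin s ≃ Q := (finCongr (by simp [hQc])).trans Q.equivFin.symm
      unfold ntup
      rw [Nat.one_le_iff_ne_zero, Finset.card_ne_zero]
      refine ⟨fun j => f (e j), ?_⟩
      rw [mem_filter]
      refine ⟨mem_univ _, fun j => (hf (e j)).1, fun i j hij => ?_⟩
      -- the prefixes are different
      by_contra hk
      unfold Rd at hk
      push Not at hk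
      obtain ⟨hc1, hc2⟩ := H.ctp K (by omega) hKm
      have hcb := H.ctb K (by omega) hKm
      have hmod := elt_mod_prefix lay H.good (K := K) hc2.le (x := x) (z := (f (e i)).1)
        (z' := (f (e j)).1) (fun m hm => hk m hm)
      have hs1 := (hf (e i)).1.2.2
      have hs2 := (hf (e j)).1.2.2
      have h2 : elt lay K x (f (e i)).1 + elt lay K' x (f (e i)).2 ≡
          elt lay K x (f (e j)).1 + elt lay K' x (f (e j)).2 [MOD 2 ^ (lay K).bot (ct K)] := by
        rw [hs1, hs2]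
      have h3 := Nat.ModEq.add_left_cancel hmod h2
      have hlt : ∀ z', elt lay K' x z' < 2 ^ (lay K).bot (ct K) := by
        intro z'
        calc elt lay K' x z' < 2 ^ (K'.val + 1) := elt_lt lay H.good K' x z'
          _ ≤ 2 ^ (lay K).bot (ct K) := Nat.pow_le_pow_right (by norm_num) (by omega)
      have h4 := h3.eq_of_lt_of_lt (hlt _) (hlt _)
      have h5 : elt lay K x (f (e i)).1 = elt lay K x (f (e j)).1 := by omega
      have h6 : (e i).1 = (e j).1 := by
        refine Prod.ext ?_ ?_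
        · rw [← (hf (e i)).2.1, ← (hf (e j)).2.1]; exact h5
        · rw [← (hf (e i)).2.2, ← (hf (e j)).2.2]; exact h4
      have := e.injective (Subtype.ext h6)
      exact absurd this (ne_of_lt hij)
    exact_mod_cast h1
  · positivity

end

end Pool.Agent.E2
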